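import Pool.Agent.D0H31.SG.Main

/-!
# Indecomposable motives and motives with two degrees
-/

set_option autoImplicit false

open CategoryTheory AlgebraicGeometry Finset TensorProduct Module

universe u v

namespace Pool.Agent.D0H31.SG

open Pool.Agent.H914 VarClass Obj WeilCohomology Pool.Agent.N190.CB Pool.Agent.N103.OC
  Pool.Agent.TH133.PW Pool.Agent.H447 Pool.Agent.N536.SG Pool.Agent.N536.HK

variable {k : Type u} [Field k] {𝒱 : VarClass k} {ops : CycleOps 𝒱}
  {W : WeilCohomology.{u, v} ops} {X Y Z : 𝒱.Obj}

lemma evenPart_mem_parityOps {e : Module.End W.K (W.H X)} (he : e ∈ KOp W X X 0)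
    (hee : e * e = e) : evenPart W e ∈ parityOps W e := by
  refine ⟨?_, e_even hee, even_e he hee⟩
  unfold PreservesParity
  rw [par_even he]
  apply gr_ext (W.isInternal X)
  intro i x hx
  rw [Module.End.mul_apply, par, scal_apply _ _ hx, map_smul, evenPart_apply hx]
  split_ifs with hi
  · rw [hi.neg_one_pow, one_smul]
  · rw [smul_zero]

/-- Indecomposable motives are rigid. -/
lemma rigid_of_indecomposable {e : Module.End W.K (W.H X)} (h : Indecomposable W e)
    (L : Set (Module.End W.K (W.H X))) : Rigid W e L := by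
  intro B hB h1 h2 _
  obtain ⟨c, N, hN⟩ := h B hB h1 h2
  refine ⟨c, c, N, fun j x hx hx' => ?_⟩
  rw [ite_self]
  have h3 : ∀ m : ℕ, ((B - c • (1 : Module.End W.K (W.H X))) ^ m) x = ((B - c • e) ^ m) x ∧
      e (((B - c • e) ^ m) x) = ((B - c • e) ^ m) x := by
    intro m
    induction m with
    | zero => exact ⟨rfl, hx'⟩
    | succ m ih =>
      have h4 : ((B - c • e) ^ (m + 1)) x = (B - c • e) (((B - c • e) ^ m) x) := by
        rw [pow_succ', Module.End.mul_apply]
      have h5 : (B - c • (1 : Module.End W.K (W.H X))) (((B - c • e) ^ m) x) =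
          (B - c • e) (((B - c • e) ^ m) x) := by
        rw [LinearMap.sub_apply, LinearMap.sub_apply, LinearMap.smul_apply,
          LinearMap.smul_apply, Module.End.one_apply, ih.2]
      constructor
      · rw [pow_succ', Module.End.mul_apply, ih.1, h5, h4]
      · rw [h4, LinearMap.sub_apply, LinearMap.smul_apply, map_sub, map_smul, ih.2, ih.2,
          ← Module.End.mul_apply, h1]
  rw [(h3 N).1, hN, LinearMap.zero_apply]

/-- The sign conjecture for a pure motive. -/
lemma signOf_of_pure {e : Module.End W.K (W.H X)} (he : e ∈ KOp W X X 0) (h : IsPure W e) :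
    SignOf W X e := by
  rcases h with h | h
  · refine ⟨e, by rw [algOps_eq]; exact he, fun j x hx => ?_⟩
    split_ifs with hj
    · rfl
    · exact h j (Nat.not_even_iff_odd.1 hj) x hx
  · refine ⟨0, Submodule.zero_mem _, fun j x hx => ?_⟩
    split_ifs with hj
    · rw [h j hj x hx, LinearMap.zero_apply]
    · rfl

/-- The sign conjecture for an indecomposable motive. -/
lemma signOf_iff_pure {e : Module.End W.K (W.H X)} (he : e ∈ KOp W X X 0) (hee : e * e = e)
    (h : Indecomposable W e) : SignOf W X e ↔ IsPure W e := by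
  refine ⟨fun hs => ?_, signOf_of_pure he⟩
  obtain ⟨P, hP, hPx⟩ := hs
  have hPe : P = evenPart W e := by
    apply gr_ext (W.isInternal X)
    intro i x hx
    rw [hPx i x hx, evenPart_apply hx]
  subst hPe
  obtain ⟨c, N, hN⟩ := h _ hP (e_even hee) (even_e he hee)
  have hex : ∀ x, e (e x) = e x := fun x => by rw [← Module.End.mul_apply, hee]
  -- on even elements the operator is `1 - c`, on odd elements it is `- c`
  have h3 : ∀ (i : ℕ) (x : W.H X), x ∈ W.gr X i → e x = x → ∀ m : ℕ,
      ((evenPart W e - c • e) ^ m) x = (((if Even i then 1 else 0) - c) ^ m : W.K) • x := by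
    intro i x hx hx' m
    induction m with
    | zero => rw [pow_zero, pow_zero, one_smul, Module.End.one_apply]
    | succ m ih =>
      rw [pow_succ', Module.End.mul_apply, ih, map_smul, LinearMap.sub_apply,
        LinearMap.smul_apply, evenPart_apply hx, hx', pow_succ, mul_smul, sub_smul]
      split_ifs
      · rw [one_smul]
      · rw [zero_smul]
  by_cases hc : c = 1
  · left
    intro j hj x hx
    have h4 := h3 j (e x) (kop_gr he j hx) (hex x) N
    rw [hN, LinearMap.zero_apply, if_neg (Nat.not_even_iff_odd.2 hj), hc] at h4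
    refine (smul_eq_zero.1 h4.symm).resolve_left (pow_ne_zero _ ?_)
    rw [zero_sub]
    exact neg_ne_zero.2 one_ne_zero
  · right
    intro j hj x hx
    have h4 := h3 j (e x) (kop_gr he j hx) (hex x) N
    rw [hN, LinearMap.zero_apply, if_pos hj] at h4
    exact (smul_eq_zero.1 h4.symm).resolve_left (pow_ne_zero _ (sub_ne_zero.2 (Ne.symm hc)))

/-- The degree operator of a product. -/
lemma deg_prod : scal (W.isInternal (Y.prod X)) (fun i => (i : W.K)) =
    dd W (scal (W.isInternal Y) (fun i => (i : W.K))) (scal (W.isInternal X) (fun i => (i : W.K))) := by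
  apply op_ext
  intro i j a ha b hb
  rw [scal_apply_ext _ ha hb, dd, LinearMap.add_apply, extOp_tmul, extOp_tmul,
    scal_apply _ _ ha, scal_apply _ _ hb, Module.End.one_apply, Module.End.one_apply, map_smul,
    map_smul, smul_mul_assoc, mul_smul_comm, ← add_smul]
  push_cast
  rfl

lemma deg_pw (n : ℕ) : scal (W.isInternal (pw X n)) (fun i => (i : W.K)) =
    derOp W (scal (W.isInternal X) (fun i => (i : W.K))) n := by
  induction n using Nat.twoStepInduction with
  | zero => rfl
  | one => rfl
  | more n _ ih =>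
    have h := deg_prod (W := W) (Y := pw X (n + 1)) (X := X)
    rw [ih] at h
    exact h

lemma deg_comm {ε : Module.End W.K (W.H Y)} (hε : ε ∈ KOp W Y Y 0) :
    ε * scal (W.isInternal Y) (fun i => (i : W.K)) =
      scal (W.isInternal Y) (fun i => (i : W.K)) * ε := by
  apply gr_ext (W.isInternal Y)
  intro i x hx
  rw [Module.End.mul_apply, Module.End.mul_apply, scal_apply _ _ hx,
    scal_apply _ _ (kop_gr hε i hx), map_smul]

/-- For a motive with one even and one odd degree all algebraic operators on the powers preserve the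
number of odd factors. -/
theorem even_of_inDegrees {e : Module.End W.K (W.H X)} (hee : e * e = e) {i j : ℕ}
    (hi : Even i) (hj : Odd j) (hd : InDegrees W e i j) {n : ℕ} (hn1 : 1 ≤ n)
    {ε : Module.End W.K (W.H (pw X n))} (hε : ε ∈ KOp W (pw X n) (pw X n) 0)
    (hl : powOp W e n * ε = ε) (hr : ε * powOp W e n = ε) (he : e ∈ KOp W X X 0) :
    ε * derOp W (evenPart W e) n = derOp W (evenPart W e) n * ε := by
  obtain ⟨m, rfl⟩ : ∃ m, n = m + 1 := ⟨n - 1, by omega⟩
  set w := scal (W.isInternal X) (fun i => (i : W.K)) with hw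
  set Q := powOp W e (m + 1) with hQ
  set G := e * w * e with hG
  have hG1 : e * G = G := by rw [hG, ← mul_assoc, ← mul_assoc, hee]
  have hG2 : G * e = G := by rw [hG, mul_assoc, hee]
  have hGe : G = (i : W.K) • evenPart W e + (j : W.K) • (e - evenPart W e) := by
    apply gr_ext (W.isInternal X)
    intro l x hx
    rw [LinearMap.add_apply, LinearMap.smul_apply, LinearMap.smul_apply, evenPart_apply hx,
      oddPart_apply hx, hG, Module.End.mul_apply, Module.End.mul_apply, hw,
      scal_apply _ _ (kop_gr he l hx), map_smul, ← Module.End.mul_apply, hee]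
    by_cases h1 : l = i
    · subst h1
      rw [if_pos hi, if_pos hi, smul_zero, add_zero]
    · by_cases h2 : l = j
      · subst h2
        have h3 := Nat.not_even_iff_odd.2 hj
        rw [if_neg h3, if_neg h3, smul_zero, zero_add]
      · rw [hd l h1 h2 x hx]
        simp
  have hc : ε * derOp W w (m + 1) = derOp W w (m + 1) * ε := by
    rw [hw, ← deg_pw]
    exact deg_comm hε
  have hQG : Q * derOp W G (m + 1) = derOp W G (m + 1) * Q := powOp_derOp_comm hG1 hG2 _
  have hQQ : Q * Q = Q := powOp_idem hee _
  have hcomp : Q * derOp W G (m + 1) * Q = Q * derOp W w (m + 1) * Q :=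
    powOp_compress hee w (m + 1)
  have e1 : ε * derOp W G (m + 1) = ε * derOp W w (m + 1) := by
    calc ε * derOp W G (m + 1) = ε * (Q * Q) * derOp W G (m + 1) := by rw [hQQ, hr]
      _ = ε * (Q * (Q * derOp W G (m + 1))) := by rw [mul_assoc, mul_assoc Q]
      _ = ε * (Q * (derOp W G (m + 1) * Q)) := by rw [hQG]
      _ = ε * (Q * derOp W G (m + 1) * Q) := by rw [mul_assoc Q]
      _ = (ε * Q) * derOp W w (m + 1) * Q := by rw [hcomp, mul_assoc Q, mul_assoc, mul_assoc]
      _ = ε * derOp W w (m + 1) := by rw [hr, hc, mul_assoc, hr]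
  have e2 : derOp W G (m + 1) * ε = derOp W w (m + 1) * ε := by
    calc derOp W G (m + 1) * ε = derOp W G (m + 1) * (Q * Q) * ε := by
          rw [hQQ, mul_assoc, hl]
      _ = (Q * derOp W G (m + 1) * Q) * ε := by
        rw [← mul_assoc (derOp W G (m + 1)), ← hQG]
      _ = Q * (derOp W w (m + 1) * (Q * ε)) := by rw [hcomp, mul_assoc, mul_assoc]
      _ = derOp W w (m + 1) * ε := by rw [hl, ← hc, ← mul_assoc, hl]
  have e3 : ε * derOp W G (m + 1) = derOp W G (m + 1) * ε := by rw [e1, e2, hc]
  have e4 : derOp W G (m + 1) = ((i : W.K) - j) • derOp W (evenPart W e) (m + 1) +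
      (j : W.K) • derOp W e (m + 1) := by
    have e5 : ((i : W.K) - j) • derOp W (evenPart W e) (m + 1) =
        (i : W.K) • derOp W (evenPart W e) (m + 1) -
          (j : W.K) • derOp W (evenPart W e) (m + 1) := by
      apply LinearMap.ext
      intro x
      rw [LinearMap.smul_apply, LinearMap.sub_apply, LinearMap.smul_apply, LinearMap.smul_apply,
        sub_smul]
    rw [hGe, derOp_add, derOp_smul, derOp_smul, derOp_sub, smul_sub, e5]
    abel
  have htop : ε * derOp W e (m + 1) = ((m + 1 : ℕ) : W.K) • ε := by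
    conv_lhs => rw [← hr]
    rw [mul_assoc, powOp_derOp hee, mul_smul_comm, hr]
  have htop' : derOp W e (m + 1) * ε = ((m + 1 : ℕ) : W.K) • ε := by
    conv_lhs => rw [← hl]
    rw [← mul_assoc, (powOp_derOp_comm hee hee (m + 1)).symm.trans (powOp_derOp hee m),
      smul_mul_assoc, hl]
  rw [e4, mul_add, add_mul, mul_smul_comm, mul_smul_comm, smul_mul_assoc, smul_mul_assoc, htop,
    htop', add_left_inj] at e3
  have hij : (i : W.K) - j ≠ 0 := by
    rw [sub_ne_zero]
    intro h
    have h' : i = j := by exact_mod_cast h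
    subst h'
    exact (Nat.not_even_iff_odd.2 hj) hi
  have h5 := congrArg (fun F => ((i : W.K) - j)⁻¹ • F) e3
  simp only [smul_smul, inv_mul_cancel₀ hij, one_smul] at h5
  exact h5

end Pool.Agent.D0H31.SG
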