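import Pool.Agent.D0H31.SG.Stmt
import Pool.Agent.D0H31.SG.Two

/-!
# The notions of the statement and the external products
-/

set_option autoImplicit false

open CategoryTheory AlgebraicGeometry Finset TensorProduct Module

universe u v

namespace Pool.Agent.D0H31.SG

open Pool.Agent.H914 VarClass Obj WeilCohomology Pool.Agent.N190.CB Pool.Agent.N103.OC
  Pool.Agent.TH133.PW Pool.Agent.H447 Pool.Agent.N536.SG Pool.Agent.N536.HK

section Par

variable {K V : Type*} [Field K] [AddCommGroup V] [Module K V] {gr : ℕ → Submodule K V}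

lemma par_of_mem (h : DirectSum.IsInternal gr) {j : ℕ} {y : V}
    (hy : y ∈ ⨆ (i : ℕ) (_ : Even (i + j)), gr i) : par h y = (-1 : K) ^ j • y := by
  have h1 : (⨆ (i : ℕ) (_ : Even (i + j)), gr i) ≤
      LinearMap.ker (par h - (-1 : K) ^ j • (1 : Module.End K V)) := by
    refine iSup₂_le fun i hi x hx => ?_
    rw [LinearMap.mem_ker, LinearMap.sub_apply, par, scal_apply h _ hx, LinearMap.smul_apply,
      Module.End.one_apply, sub_eq_zero]
    congr 1
    rw [Nat.even_add] at hi
    by_cases hj : Even j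
    · rw [hj.neg_one_pow, (hi.2 hj).neg_one_pow]
    · rw [(Nat.not_even_iff_odd.1 hj).neg_one_pow,
        (Nat.not_even_iff_odd.1 (fun h => hj (hi.1 h))).neg_one_pow]
  have h2 := h1 hy
  rw [LinearMap.mem_ker, LinearMap.sub_apply, LinearMap.smul_apply, Module.End.one_apply,
    sub_eq_zero] at h2
  exact h2

lemma add_par_mem (h : DirectSum.IsInternal gr) (j : ℕ) (y : V) :
    y + (-1 : K) ^ j • par h y ∈ ⨆ (i : ℕ) (_ : Even (i + j)), gr i := by
  refine gr_induction h
    (p := fun y => y + (-1 : K) ^ j • par h y ∈ ⨆ (i : ℕ) (_ : Even (i + j)), gr i) ?_ ?_ y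
  · intro i a ha
    rw [par, scal_apply h _ ha, smul_smul, ← pow_add, add_comm j i]
    by_cases hij : Even (i + j)
    · rw [hij.neg_one_pow, one_smul]
      exact Submodule.mem_iSup_of_mem i (Submodule.mem_iSup_of_mem hij
        ((gr i).add_mem ha ha))
    · rw [(Nat.not_even_iff_odd.1 hij).neg_one_pow, neg_one_smul, add_neg_cancel]
      exact Submodule.zero_mem _
  · intro a b ha hb
    have h1 := Submodule.add_mem _ ha hb
    rw [map_add, smul_add]
    convert h1 using 1
    abel

lemma parity_iff [CharZero K] (h : DirectSum.IsInternal gr) {G : Module.End K V} :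
    (∀ j, ∀ x ∈ gr j, G x ∈ ⨆ (i : ℕ) (_ : Even (i + j)), gr i) ↔ G * par h = par h * G := by
  constructor
  · intro h1
    apply gr_ext h
    intro j x hx
    rw [Module.End.mul_apply, Module.End.mul_apply, par_of_mem h (h1 j x hx), par,
      scal_apply h _ hx, map_smul]
  · intro h1 j x hx
    have h2 : par h (G x) = (-1 : K) ^ j • G x := by
      rw [← Module.End.mul_apply, ← h1, Module.End.mul_apply, par, scal_apply h _ hx, map_smul]
    have h3 := add_par_mem h j (G x)
    rw [h2, smul_smul, ← pow_add, (Even.add_self j).neg_one_pow, one_smul, ← two_smul K] at h3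
    have h4 := Submodule.smul_mem _ ((2 : K)⁻¹) h3
    rwa [smul_smul, inv_mul_cancel₀ two_ne_zero, one_smul] at h4

end Par

variable {k : Type u} [Field k] {𝒱 : VarClass k} {ops : CycleOps 𝒱}
  {W : WeilCohomology.{u, v} ops} {X Y Z : 𝒱.Obj}

lemma mem_alg {f : Module.End W.K (W.H X)} : f ∈ St.alg W X ↔ f ∈ KOp W X X 0 := by
  rw [← algOps_eq]
  exact Iff.rfl

lemma sign_iff {f : Module.End W.K (W.H X)} : St.Sign W X f ↔ SignOf W X f := Iff.rfl

lemma parOps_eq {e : Module.End W.K (W.H X)} : St.parOps W X e = parityOps W e := by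
  ext G
  show (_ ∧ _) ↔ (_ ∧ _)
  rw [parity_iff (W.isInternal X)]
  exact Iff.rfl

lemma rigid_iff {e : Module.End W.K (W.H X)} {L : Set (Module.End W.K (W.H X))} :
    St.Rigid W X e L ↔ Rigid W e L := Iff.rfl

lemma indec_iff {e : Module.End W.K (W.H X)} : St.Indec W X e ↔ Indecomposable W e := Iff.rfl

lemma isPure_iff {e : Module.End W.K (W.H X)} : St.IsPure W X e ↔ IsPure W e := Iff.rfl

lemma inDegrees_iff {e : Module.End W.K (W.H X)} {i j : ℕ} :
    St.InDegrees W X e i j ↔ InDegrees W e i j := Iff.rfl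

lemma isEvenPart_iff {e G : Module.End W.K (W.H X)} :
    St.IsEvenPart (W.gr X) e G ↔ G = evenPart W e := by
  constructor
  · intro h
    apply gr_ext (W.isInternal X)
    intro i x hx
    rw [h i x hx, evenPart_apply hx]
  · rintro rfl
    intro j x hx
    exact evenPart_apply hx

lemma tens_succ (n : ℕ) (x : ℕ → W.H X) : St.tens W X (n + 2) x =
    W.map (fst (pw X (n + 1)) X) (St.tens W X (n + 1) x) *
      W.map (snd (pw X (n + 1)) X) (x (n + 1)) := rfl

lemma tens_congr (n : ℕ) {x y : ℕ → W.H X} (h : ∀ i < n + 1, x i = y i) :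
    St.tens W X (n + 1) x = St.tens W X (n + 1) y := by
  induction n with
  | zero => exact h 0 (by omega)
  | succ n ih =>
    rw [tens_succ, tens_succ, ih fun i hi => h i (by omega), h (n + 1) (by omega)]

lemma ext_tens (n : ℕ) {M : Type*} [AddCommGroup M] [Module W.K M]
    {F F' : W.H (pw X n) →ₗ[W.K] M}
    (h : ∀ x, F (St.tens W X n x) = F' (St.tens W X n x)) : F = F' := by
  match n with
  | 0 =>
    apply LinearMap.ext
    intro a
    exact h fun _ => a
  | 1 =>
    apply LinearMap.ext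
    intro a
    exact h fun _ => a
  | n + 2 =>
    apply ext_kunneth_lin
    intro a b
    let R : W.H (pw X (n + 1)) →ₗ[W.K] W.H (pw X (n + 2)) :=
      (LinearMap.mulRight W.K (W.map (snd (pw X (n + 1)) X) b)) ∘ₗ
        (W.map (fst (pw X (n + 1)) X)).toLinearMap
    have h1 : F ∘ₗ R = F' ∘ₗ R := by
      apply ext_tens (n + 1)
      intro x
      have h2 := h (Function.update x (n + 1) b)
      rw [tens_succ, Function.update_self, tens_congr n (y := x) fun i hi =>
        Function.update_of_ne (by omega) _ _] at h2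
      exact h2
    exact congrArg (fun F => F a) h1

lemma powOp_tens (e : Module.End W.K (W.H X)) (n : ℕ) (x : ℕ → W.H X) :
    powOp W e n (St.tens W X n x) = St.tens W X n fun i => e (x i) := by
  match n with
  | 0 => rfl
  | 1 => rfl
  | n + 2 =>
    rw [powOp_succ, tens_succ, tens_succ]
    erw [extOp_tmul]
    rw [powOp_tens e (n + 1)]

lemma dd_tmul (D : Module.End W.K (W.H Y)) (G : Module.End W.K (W.H X)) (a : W.H Y) (b : W.H X) :
    dd W D G (W.map (fst Y X) a * W.map (snd Y X) b) =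
      W.map (fst Y X) (D a) * W.map (snd Y X) b + W.map (fst Y X) a * W.map (snd Y X) (G b) := by
  rw [dd, LinearMap.add_apply, extOp_tmul, extOp_tmul, Module.End.one_apply, Module.End.one_apply]

lemma derOp_tens (G : Module.End W.K (W.H X)) (n : ℕ) (x : ℕ → W.H X) :
    derOp W G (n + 1) (St.tens W X (n + 1) x) =
      ∑ i ∈ range (n + 1), St.tens W X (n + 1) (Function.update x i (G (x i))) := by
  induction n with
  | zero =>
    rw [zero_add, sum_range_one]
    show G (x 0) = Function.update x 0 (G (x 0)) 0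
    rw [Function.update_self]
  | succ n ih =>
    refine (dd_tmul (Y := pw X (n + 1)) (derOp W G (n + 1)) G (St.tens W X (n + 1) x)
      (x (n + 1))).trans ?_
    rw [ih, map_sum, sum_mul]
    refine Eq.trans ?_ (sum_range_succ _ (n + 1)).symm
    congr 1
    · apply sum_congr rfl
      intro i hi
      rw [mem_range] at hi
      rw [tens_succ, Function.update_of_ne (show n + 1 ≠ i by omega)]
    · rw [tens_succ, Function.update_self,
        tens_congr n (x := Function.update x (n + 1) (G (x (n + 1)))) (y := x)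
          fun i hi => Function.update_of_ne (show i ≠ n + 1 by omega) _ _]

lemma isTensorPow_iff {e : Module.End W.K (W.H X)} {n : ℕ} {P : Module.End W.K (W.H (pw X n))} :
    St.IsTensorPow (fun _ : Unit => St.tens W X n) id e P ↔ P = powOp W e n := by
  constructor
  · intro h
    apply ext_tens n
    intro x
    rw [powOp_tens]
    exact h () x
  · rintro rfl
    intro _ x
    exact powOp_tens e n x

lemma isDer_iff {G : Module.End W.K (W.H X)} {n : ℕ} (hn : 1 ≤ n)
    {D : Module.End W.K (W.H (pw X n))} :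
    St.IsDer (fun _ : Unit => St.tens W X n) n G D ↔ D = derOp W G n := by
  obtain ⟨m, rfl⟩ : ∃ m, n = m + 1 := ⟨n - 1, by omega⟩
  constructor
  · intro h
    apply ext_tens (m + 1)
    intro x
    rw [derOp_tens]
    exact h () x
  · rintro rfl
    intro _ x
    exact derOp_tens G m x

lemma tensIn_eq (n : ℕ) (y : W.H Y) (x : ℕ → W.H X) : St.tensIn W Y X n y x =
    W.map (fst Y (pw X n)) y * W.map (snd Y (pw X n)) (St.tens W X n x) := rfl

lemma ext_tensIn (n : ℕ) {M : Type*} [AddCommGroup M] [Module W.K M]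
    {F F' : W.H (Y.prod (pw X n)) →ₗ[W.K] M}
    (h : ∀ y x, F (St.tensIn W Y X n y x) = F' (St.tensIn W Y X n y x)) : F = F' := by
  apply ext_kunneth_lin
  intro a b
  let R : W.H (pw X n) →ₗ[W.K] W.H (Y.prod (pw X n)) :=
    (LinearMap.mulLeft W.K (W.map (fst Y (pw X n)) a)) ∘ₗ (W.map (snd Y (pw X n))).toLinearMap
  have h1 : F ∘ₗ R = F' ∘ₗ R := ext_tens n fun x => h a x
  exact congrArg (fun F => F b) h1

lemma isTensorPowIn_iff {f : Module.End W.K (W.H Y)} {e : Module.End W.K (W.H X)} {n : ℕ}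
    {P : Module.End W.K (W.H (Y.prod (pw X n)))} :
    St.IsTensorPow (St.tensIn W Y X n) f e P ↔ P = extOp W f (powOp W e n) := by
  have h0 : ∀ y x, extOp W f (powOp W e n) (St.tensIn W Y X n y x) =
      St.tensIn W Y X n (f y) fun i => e (x i) := by
    intro y x
    rw [tensIn_eq, tensIn_eq, extOp_tmul, powOp_tens]
  constructor
  · intro h
    apply ext_tensIn n
    intro y x
    rw [h0]
    exact h y x
  · rintro rfl
    exact h0

lemma isDerIn_iff {G : Module.End W.K (W.H X)} {n : ℕ} (hn : 1 ≤ n)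
    {D : Module.End W.K (W.H (Y.prod (pw X n)))} :
    St.IsDer (St.tensIn W Y X n) n G D ↔ D = extOp W 1 (derOp W G n) := by
  obtain ⟨m, rfl⟩ : ∃ m, n = m + 1 := ⟨n - 1, by omega⟩
  have h0 : ∀ y x, extOp W 1 (derOp W G (m + 1)) (St.tensIn W Y X (m + 1) y x) =
      ∑ i ∈ range (m + 1), St.tensIn W Y X (m + 1) y (Function.update x i (G (x i))) := by
    intro y x
    rw [tensIn_eq, extOp_tmul, derOp_tens, map_sum, mul_sum, Module.End.one_apply]
    rfl
  constructor
  · intro h
    apply ext_tensIn (m + 1)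
    intro y x
    rw [h0]
    exact h y x
  · rintro rfl
    exact h0

lemma commDer_iff {G : Module.End W.K (W.H X)} {n : ℕ} (hn : 1 ≤ n)
    {ε : Module.End W.K (W.H (pw X n))} :
    St.CommDer (fun _ : Unit => St.tens W X n) n ε G ↔ ε * derOp W G n = derOp W G n * ε := by
  constructor
  · rintro ⟨D, hD, h⟩
    rw [isDer_iff hn] at hD
    rw [← hD]
    exact h
  · intro h
    exact ⟨_, (isDer_iff hn).2 rfl, h⟩

lemma commDerIn_iff {G : Module.End W.K (W.H X)} {n : ℕ} (hn : 1 ≤ n)
    {ε : Module.End W.K (W.H (Y.prod (pw X n)))} :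
    St.CommDer (St.tensIn W Y X n) n ε G ↔
      ε * extOp W 1 (derOp W G n) = extOp W 1 (derOp W G n) * ε := by
  constructor
  · rintro ⟨D, hD, h⟩
    rw [isDerIn_iff hn] at hD
    rw [← hD]
    exact h
  · intro h
    exact ⟨_, (isDerIn_iff hn).2 rfl, h⟩

lemma summand_of_piece {e : Module.End W.K (W.H X)} {n : ℕ} {ε : Module.End W.K (W.H (pw X n))}
    (h : St.Piece W X e n ε) : IsSummand W (powOp W e n) ε := by
  obtain ⟨h1, -, P, hP, h2, h3⟩ := h
  rw [isTensorPow_iff] at hP
  rw [hP] at h2 h3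
  exact ⟨h1.1, h1.2, h2, h3⟩

lemma summand_of_pieceIn {f : Module.End W.K (W.H Y)} {e : Module.End W.K (W.H X)} {n : ℕ}
    {ε : Module.End W.K (W.H (Y.prod (pw X n)))} (h : St.PieceIn W Y X f e n ε) :
    IsSummand W (extOp W f (powOp W e n)) ε := by
  obtain ⟨h1, -, P, hP, h2, h3⟩ := h
  rw [isTensorPowIn_iff] at hP
  rw [hP] at h2 h3
  exact ⟨h1.1, h1.2, h2, h3⟩

lemma isInvariant_iff {e : Module.End W.K (W.H X)} {L : Set (Module.End W.K (W.H X))} {n : ℕ}
    (hn : 1 ≤ n) {ε : Module.End W.K (W.H (pw X n))} (h : St.Piece W X e n ε) :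
    St.Invariant W X e L n ε ↔ IsInvariant W e L n ε := by
  constructor
  · rintro ⟨⟨G, hG, h1⟩, h2⟩
    rw [isEvenPart_iff] at hG
    subst hG
    exact ⟨summand_of_piece h, (commDer_iff hn).1 h1, fun G hG => (commDer_iff hn).1 (h2 G hG)⟩
  · intro h1
    exact ⟨⟨_, isEvenPart_iff.2 rfl, (commDer_iff hn).2 h1.even⟩,
      fun G hG => (commDer_iff hn).2 (h1.comm G hG)⟩

lemma isInvariantIn_of {f : Module.End W.K (W.H Y)} {e : Module.End W.K (W.H X)}
    {L : Set (Module.End W.K (W.H X))} {n : ℕ} (hn : 1 ≤ n)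
    {ε : Module.End W.K (W.H (Y.prod (pw X n)))} (h : St.PieceIn W Y X f e n ε)
    (h' : St.InvariantIn W Y X e L n ε) : IsInvariantIn W f e L n ε := by
  obtain ⟨⟨G, hG, h1⟩, h2⟩ := h'
  rw [isEvenPart_iff] at hG
  subst hG
  exact ⟨summand_of_pieceIn h, (commDerIn_iff hn).1 h1,
    fun G hG => (commDerIn_iff hn).1 (h2 G hG)⟩

end Pool.Agent.D0H31.SG
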