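import Pool.Agent.D0H31.SG.Stmt

/-!
# The moments of the dimensions of a motive
-/

open CategoryTheory AlgebraicGeometry

set_option autoImplicit false

universe u v

namespace Pool.Agent.D0H31.SG.St

section Alg

variable {K : Type*} {V : Type*} [Field K] [AddCommGroup V] [Module K V]

/-- The sum of `φ i` times the dimension of the image of `gr i` under `e`, over `i ≤ N`. -/
noncomputable def MomOf (gr : ℕ → Submodule K V) (N : ℕ) (e : Module.End K V) (φ : ℕ → ℤ) : ℤ :=
  ∑ i ∈ Finset.range (N + 1), φ i * (Module.finrank K ((gr i).map e) : ℤ)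

/-- The image of `e` is contained in the sum of the `gr i` with `a ≤ i ≤ b`. -/
def BetweenOn (gr : ℕ → Submodule K V) (e : Module.End K V) (a b : ℕ) : Prop :=
  ∀ i, i < a ∨ b < i → ∀ x ∈ gr i, e x = 0

end Alg

open Pool.Agent.H914 VarClass Obj WeilCohomology Pool.Agent.N103.OC Pool.Agent.TH133.PW

variable {k : Type u} [Field k] {𝒱 : VarClass k} {ops : CycleOps 𝒱}

/-- The sum of `φ i * dim V^i` over all `i`, where `V^i = e H^i(X)`. -/
noncomputable def Mom (W : WeilCohomology.{u, v} ops) (X : 𝒱.Obj) (e : Op W X) (φ : ℕ → ℤ) : ℤ :=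
  MomOf (W.gr X) (2 * X.dim) e φ

/-- The degrees of `V`, the image of `e`, are between `a` and `b`. -/
def Between (W : WeilCohomology.{u, v} ops) (X : 𝒱.Obj) (e : Op W X) (a b : ℕ) : Prop :=
  BetweenOn (W.gr X) e a b

end Pool.Agent.D0H31.SG.St
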