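import Pool.Agent.D0H31.SG.Brg
import Pool.Agent.D0H31.SG.Stmt2

/-!
# The centre of a direct summand of a power
-/

set_option autoImplicit false

open CategoryTheory AlgebraicGeometry Finset TensorProduct Module

universe u v

namespace Pool.Agent.D0H31.SG

open Pool.Agent.H914 VarClass Obj WeilCohomology Pool.Agent.N190.CB Pool.Agent.N103.OC
  Pool.Agent.TH133.PW Pool.Agent.H447 Pool.Agent.N536.SG Pool.Agent.N536.HK

section Lin

variable {K V : Type*} [Field K] [AddCommGroup V] [Module K V] {gr : ℕ → Submodule K V}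

lemma scal_comm_of_gr (h : DirectSum.IsInternal gr) {e : Module.End K V}
    (hgr : ∀ i, ∀ x ∈ gr i, e x ∈ gr i) (f : ℕ → K) : scal h f * e = e * scal h f := by
  apply gr_ext h
  intro j x hx
  rw [Module.End.mul_apply, Module.End.mul_apply, scal_apply h _ (hgr j x hx),
    scal_apply h _ hx, map_smul]

lemma trace_mul_scal [CharZero K] [FiniteDimensional K V] (h : DirectSum.IsInternal gr) {N : ℕ}
    (hN : ∀ i, N ≤ i → gr i = ⊥) {e : Module.End K V}
    (hgr : ∀ i, ∀ x ∈ gr i, e x ∈ gr i) (hee : e * e = e) (f : ℕ → K) :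
    LinearMap.trace K V (e * scal h f) =
      ∑ i ∈ range N, f i * (finrank K ((gr i).map e) : K) := by
  rw [scal_eq_sum h hN, mul_sum, map_sum]
  refine sum_congr rfl fun i _ => ?_
  have hc : H914.proj h i * e = e * H914.proj h i := scal_comm_of_gr h hgr _
  have hi : (e * H914.proj h i) * (e * H914.proj h i) = e * H914.proj h i := by
    rw [mul_assoc, ← mul_assoc (H914.proj h i), hc, mul_assoc e (H914.proj h i),
      proj_mul_proj, ← mul_assoc, hee]
  have hrange : LinearMap.range (e * H914.proj h i) = (gr i).map e := by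
    rw [Module.End.mul_eq_comp, LinearMap.range_comp, range_proj]
  rw [mul_smul_comm, map_smul, smul_eq_mul, Pool.Agent.N536.HK.trace_idem hi, hrange]

end Lin

variable {k : Type u} [Field k] {𝒱 : VarClass k} {ops : CycleOps 𝒱}
  {W : WeilCohomology.{u, v} ops} {X Y Z : 𝒱.Obj}

/-- The trace of `a` times the scalars `f i` on `H^i`. -/
noncomputable def tsc (W : WeilCohomology.{u, v} ops) (X : 𝒱.Obj) (a : Module.End W.K (W.H X))
    (f : ℕ → W.K) : W.K := LinearMap.trace W.K (W.H X) (a * scal (W.isInternal X) f)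

lemma mom_cast {e : Module.End W.K (W.H X)} (he : e ∈ KOp W X X 0) (hee : e * e = e)
    (φ : ℕ → ℤ) : ((St.Mom W X e φ : ℤ) : W.K) = tsc W X e fun i => ((φ i : ℤ) : W.K) := by
  rw [tsc, trace_mul_scal (W.isInternal X) (N := 2 * X.dim + 1)
    (fun i hi => W.gr_eq_bot X i (by omega)) (fun i x hx => kop_gr he i hx) hee, St.Mom,
    St.MomOf]
  push_cast
  rfl

lemma str_scal {a : Module.End W.K (W.H X)} (ha : a ∈ KOp W X X 0) (f : ℕ → W.K) :
    str W X (a * scal (W.isInternal X) f) = tsc W X a fun i => (-1 : W.K) ^ i * f i := by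
  rw [str_apply, tsc, ← mul_assoc, par_comm ha, mul_assoc, par, scal_mul]

lemma str_par_scal (a : Module.End W.K (W.H X)) (f : ℕ → W.K) :
    str W X (par (W.isInternal X) * a * scal (W.isInternal X) f) = tsc W X a f := by
  rw [str_apply, tsc, ← mul_assoc, ← mul_assoc, par_mul_par, one_mul]

lemma tsc_nil {a e : Module.End W.K (W.H X)} (ha : a ∈ KOp W X X 0) (he : e ∈ KOp W X X 0)
    {c : W.K} (hc : IsNilpotent (a - c • e)) (f : ℕ → W.K) :
    tsc W X a f = c * tsc W X e f := by
  have h1 : a - c • e ∈ KOp W X X 0 := Submodule.sub_mem _ ha (Submodule.smul_mem _ _ he)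
  have h2 : Commute (a - c • e) (scal (W.isInternal X) f) :=
    (scal_comm_of_gr (W.isInternal X) (fun i x hx => kop_gr h1 i hx) f).symm
  have h3 : LinearMap.trace W.K (W.H X) ((a - c • e) * scal (W.isInternal X) f) = 0 :=
    (LinearMap.isNilpotent_trace_of_isNilpotent (h2.isNilpotent_mul_right hc)).eq_zero
  rw [sub_mul, map_sub, smul_mul_assoc, map_smul, smul_eq_mul, sub_eq_zero] at h3
  exact h3

section Core

variable {P : 𝒱.Obj} {Δ : Module.End W.K (W.H X) →ₗ[W.K] Module.End W.K (W.H P)}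
  {e : Module.End W.K (W.H X)} {Q A : Module.End W.K (W.H P)} {c : ℕ}

lemma DerLike.exists_B (hd : DerLike W P X Δ e Q c) (he : e ∈ KOp W X X 0) (hee : e * e = e)
    (hQ : par (W.isInternal P) * Q = Q * par (W.isInternal P)) (hA : A ∈ KOp W P P 0)
    (hl : Q * A = A) (hr : A * Q = A) :
    ∃ B ∈ KOp W X X 0, e * B = B ∧ B * e = B ∧ ∀ F, PreservesParity W F →
      str W P (A * Δ F) = str W X (B * F) := by
  obtain ⟨T, hT, hTF⟩ := hd.contr A hA
  refine ⟨e * T * e, kop_mul (kop_mul he hT) he, by rw [← mul_assoc, ← mul_assoc, hee],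
    by rw [mul_assoc, hee], fun F hF => ?_⟩
  have h1 : ∀ D : Module.End W.K (W.H P), str W P (A * D) = str W P (A * (Q * D * Q)) := by
    intro D
    rw [str_apply, str_apply]
    have e1 : par (W.isInternal P) * (A * (Q * D * Q)) =
        (par (W.isInternal P) * (A * Q) * D) * Q := by simp only [mul_assoc]
    rw [e1, hr, LinearMap.trace_mul_comm W.K (par (W.isInternal P) * A * D) Q, ← mul_assoc,
      ← mul_assoc, ← mul_assoc, ← hQ, mul_assoc (par (W.isInternal P)) Q A, hl]
  have h2 : str W P (A * Δ F) = str W P (A * Δ (e * F * e)) := by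
    rw [h1, h1 (Δ (e * F * e)), hd.compress]
  have hpe : par (W.isInternal X) * e = e * par (W.isInternal X) := par_comm he
  rw [h2, hTF _ (pp_mul (pp_mul (pp_kop he) hF) (pp_kop he)), str_apply, str_apply]
  have e1 : par (W.isInternal X) * (e * T * e * F) =
      e * (par (W.isInternal X) * T * e * F) := by
    have e2 : ∀ Z : Module.End W.K (W.H X), par (W.isInternal X) * (e * Z) =
        e * (par (W.isInternal X) * Z) := fun Z => by rw [← mul_assoc, hpe, mul_assoc]
    simp only [mul_assoc]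
    rw [e2]
  rw [e1, LinearMap.trace_mul_comm W.K e]
  simp only [mul_assoc]

/-- The contraction for an indecomposable motive. -/
lemma DerLike.core (hd : DerLike W P X Δ e Q c) (he : e ∈ KOp W X X 0) (hee : e * e = e)
    (hind : Indecomposable W e)
    (hQ : par (W.isInternal P) * Q = Q * par (W.isInternal P)) (hA : A ∈ KOp W P P 0)
    (hl : Q * A = A) (hr : A * Q = A) :
    ∃ z : W.K, c * str W P A = z * tsc W X e (fun i => (-1 : W.K) ^ i) ∧
      str W P (A * Δ (scal (W.isInternal X) fun i => (i : W.K))) =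
        z * tsc W X e (fun i => (-1 : W.K) ^ i * i) := by
  obtain ⟨B, hB, h1, h2, hF⟩ := hd.exists_B he hee hQ hA hl hr
  obtain ⟨z, hz⟩ := hind B (by rw [algOps_eq]; exact hB) h1 h2
  refine ⟨z, ?_, ?_⟩
  · have h3 := hF e (pp_kop he)
    have h4 : A * Δ e = (c : W.K) • A := by
      conv_lhs => rw [← hr]
      rw [mul_assoc, hd.top, mul_smul_comm, hr]
    have h5 : B * e = B * scal (W.isInternal X) (fun _ => (1 : W.K)) := by
      rw [scal_one, mul_one, h2]
    rw [h4, map_smul, smul_eq_mul, h5, str_scal hB, tsc_nil hB he hz] at h3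
    rw [h3]
    congr 2
    funext i
    rw [mul_one]
  · rw [hF _ (by
      unfold PreservesParity
      rw [par, scal_mul, scal_mul]
      congr 1
      funext i
      ring), str_scal hB, tsc_nil hB he hz]

end Core

lemma par_powOp {e : Module.End W.K (W.H X)} (he : e ∈ KOp W X X 0) (n : ℕ) :
    par (W.isInternal (pw X n)) * powOp W e n = powOp W e n * par (W.isInternal (pw X n)) :=
  par_comm (powOp_mem he n)

lemma par_extOp {Q : Module.End W.K (W.H X)} (hQ : Q ∈ KOp W X X 0) (Y : 𝒱.Obj) :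
    par (W.isInternal (Y.prod X)) * extOp W 1 Q = extOp W 1 Q * par (W.isInternal (Y.prod X)) :=
  par_comm ((kop_class W).ext (KOp.id Y) hQ)

/-- The super centre. -/
theorem centre_super {e : Module.End W.K (W.H X)} (he : e ∈ KOp W X X 0) (hee : e * e = e)
    (hind : Indecomposable W e) {n : ℕ} (hn : 1 ≤ n) {ε : Module.End W.K (W.H (pw X n))}
    (hε : IsSummand W (powOp W e n) ε) :
    St.Mom W X e (fun i => (-1) ^ i) * St.Mom W (pw X n) ε (fun i => (-1) ^ i * i) =
      n * St.Mom W (pw X n) ε (fun i => (-1) ^ i) * St.Mom W X e (fun i => (-1) ^ i * i) := by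
  obtain ⟨m, rfl⟩ : ∃ m, n = m + 1 := ⟨n - 1, by omega⟩
  have hk : ε ∈ KOp W (pw X (m + 1)) (pw X (m + 1)) 0 := by
    rw [← algOps_eq]
    exact hε.alg
  obtain ⟨z, h1, h2⟩ := (derLike_pw hee m).core he hee hind (par_powOp he (m + 1)) hk hε.left
    hε.right
  have h3 : derLin W X (m + 1) (scal (W.isInternal X) fun i => (i : W.K)) =
      scal (W.isInternal (pw X (m + 1))) (fun i => (i : W.K)) := (deg_pw (m + 1)).symm
  rw [h3, str_scal hk] at h2
  have h4 : str W (pw X (m + 1)) ε = tsc W (pw X (m + 1)) ε (fun i => (-1 : W.K) ^ i) := by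
    have h5 := str_scal hk (fun _ => (1 : W.K))
    rw [scal_one, mul_one] at h5
    rw [h5]
    congr 1
    funext i
    rw [mul_one]
  rw [h4] at h1
  have c1 := mom_cast he hee (fun i => (-1) ^ i)
  have c2 := mom_cast he hee (fun i => (-1) ^ i * i)
  have c3 := mom_cast hk hε.idem (fun i => (-1) ^ i)
  have c4 := mom_cast hk hε.idem (fun i => (-1) ^ i * i)
  push_cast at c1 c2 c3 c4
  rw [← c1, ← c3] at h1
  rw [← c2, ← c4] at h2
  have h6 : ((St.Mom W X e (fun i => (-1) ^ i) *
      St.Mom W (pw X (m + 1)) ε (fun i => (-1) ^ i * i) : ℤ) : W.K) =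
      (((m + 1 : ℕ) * St.Mom W (pw X (m + 1)) ε (fun i => (-1) ^ i) *
        St.Mom W X e (fun i => (-1) ^ i * i) : ℤ) : W.K) := by
    push_cast
    push_cast at h1
    rw [h2, h1]
    ring
  exact_mod_cast h6

/-- The super dimension is not zero. -/
lemma sdim_ne {P : 𝒱.Obj} {Δ : Module.End W.K (W.H X) →ₗ[W.K] Module.End W.K (W.H P)}
    {e : Module.End W.K (W.H X)} {Q ε : Module.End W.K (W.H P)} {c : ℕ}
    (hd : DerLike W P X Δ e Q c) (hc : c ≠ 0) (he : e ∈ KOp W X X 0) (hee : e * e = e)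
    (hind : Indecomposable W e)
    (hQ : par (W.isInternal P) * Q = Q * par (W.isInternal P)) (hε : ε ∈ KOp W P P 0)
    (hidem : ε * ε = ε) (hl : Q * ε = ε) (hr : ε * Q = ε) (h0 : ε ≠ 0)
    (hs : SignOf W P ε) : St.Mom W X e (fun i => (-1) ^ i) ≠ 0 := by
  rw [signOf_iff hε] at hs
  obtain ⟨z, h1, -⟩ := hd.core he hee hind hQ hs
    (by rw [← mul_assoc, ← hQ, mul_assoc, hl]) (by rw [mul_assoc, hr])
  intro h2
  have c1 := mom_cast he hee (fun i => (-1) ^ i)
  push_cast at c1
  rw [← c1, h2, Int.cast_zero, mul_zero, str_apply, ← mul_assoc, par_mul_par, one_mul] at h1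
  rcases mul_eq_zero.1 h1 with h3 | h3
  · exact hc (by exact_mod_cast h3)
  · exact h0 (eq_zero_of_trace_idem hidem h3)

/-- The centre of a summand which satisfies the sign conjecture. -/
theorem centre_sign {e : Module.End W.K (W.H X)} (he : e ∈ KOp W X X 0) (hee : e * e = e)
    (hind : Indecomposable W e) {n : ℕ} (hn : 1 ≤ n) {ε : Module.End W.K (W.H (pw X n))}
    (hε : IsSummand W (powOp W e n) ε) (hs : SignOf W (pw X n) ε) :
    St.Mom W X e (fun i => (-1) ^ i) * St.Mom W (pw X n) ε (fun i => i) =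
      n * St.Mom W (pw X n) ε (fun _ => 1) * St.Mom W X e (fun i => (-1) ^ i * i) := by
  obtain ⟨m, rfl⟩ : ∃ m, n = m + 1 := ⟨n - 1, by omega⟩
  have hk : ε ∈ KOp W (pw X (m + 1)) (pw X (m + 1)) 0 := by
    rw [← algOps_eq]
    exact hε.alg
  rw [signOf_iff hk] at hs
  have hQ := par_powOp he (m + 1)
  obtain ⟨z, h1, h2⟩ := (derLike_pw hee m).core he hee hind hQ hs
    (by rw [← mul_assoc, ← hQ, mul_assoc, hε.left]) (by rw [mul_assoc, hε.right])
  have h3 : derLin W X (m + 1) (scal (W.isInternal X) fun i => (i : W.K)) =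
      scal (W.isInternal (pw X (m + 1))) (fun i => (i : W.K)) := (deg_pw (m + 1)).symm
  rw [h3, str_par_scal] at h2
  have h4 : str W (pw X (m + 1)) (par (W.isInternal (pw X (m + 1))) * ε) =
      tsc W (pw X (m + 1)) ε (fun _ => (1 : W.K)) := by
    have h5 := str_par_scal ε (fun _ => (1 : W.K))
    rw [scal_one, mul_one] at h5
    exact h5
  rw [h4] at h1
  have c1 := mom_cast he hee (fun i => (-1) ^ i)
  have c2 := mom_cast he hee (fun i => (-1) ^ i * i)
  have c3 := mom_cast hk hε.idem (fun _ => 1)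
  have c4 := mom_cast hk hε.idem (fun i => i)
  push_cast at c1 c2 c3 c4
  rw [← c1, ← c3] at h1
  rw [← c2, ← c4] at h2
  have h6 : ((St.Mom W X e (fun i => (-1) ^ i) *
      St.Mom W (pw X (m + 1)) ε (fun i => i) : ℤ) : W.K) =
      (((m + 1 : ℕ) * St.Mom W (pw X (m + 1)) ε (fun _ => 1) *
        St.Mom W X e (fun i => (-1) ^ i * i) : ℤ) : W.K) := by
    push_cast
    push_cast at h1
    rw [h2, h1]
    ring
  exact_mod_cast h6

/-- The degrees of the external product. -/
lemma ext_between {F : Module.End W.K (W.H Y)} {e : Module.End W.K (W.H X)} {a b a' b' : ℕ}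
    (hF : St.Between W Y F a' b') (he : St.Between W X e a b) :
    St.Between W (Y.prod X) (extOp W F e) (a' + a) (b' + b) := by
  intro D hD x hx
  have h : extOp W F e * H914.proj (W.isInternal (Y.prod X)) D = 0 := by
    apply op_ext
    intro i j u hu v hv
    rw [Module.End.mul_apply, H914.proj, scal_apply_ext _ hu hv, map_smul, extOp_tmul,
      LinearMap.zero_apply]
    split_ifs with hij
    · have h1 : (i < a' ∨ b' < i) ∨ (j < a ∨ b < j) := by omega
      rcases h1 with h1 | h1
      · rw [hF i h1 u hu, map_zero, zero_mul, smul_zero]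
      · rw [he j h1 v hv, map_zero, mul_zero, smul_zero]
    · rw [zero_smul]
  have h2 := congrArg (fun G => G x) h
  simp only [Module.End.mul_apply, LinearMap.zero_apply] at h2
  rwa [proj_same _ hx] at h2

lemma pow_between {e : Module.End W.K (W.H X)} {a b : ℕ} (he : St.Between W X e a b) (m : ℕ) :
    St.Between W (pw X (m + 1)) (powOp W e (m + 1)) ((m + 1) * a) ((m + 1) * b) := by
  induction m with
  | zero =>
    rw [zero_add, one_mul, one_mul]
    exact he
  | succ m ih =>
    have h := ext_between (Y := pw X (m + 1)) ih he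
    have e1 : (m + 1 + 1) * a = (m + 1) * a + a := by ring
    have e2 : (m + 1 + 1) * b = (m + 1) * b + b := by ring
    rw [e1, e2]
    exact h

/-- The mean degree is between the lowest and the highest degree. -/
lemma mom_between {Q ε : Module.End W.K (W.H Y)} {a b : ℕ} (hQ : St.Between W Y Q a b)
    (hr : ε * Q = ε) : (a : ℤ) * St.Mom W Y ε (fun _ => 1) ≤ St.Mom W Y ε (fun i => i) ∧
      St.Mom W Y ε (fun i => i) ≤ b * St.Mom W Y ε (fun _ => 1) := by
  have key : ∀ i, (i < a ∨ b < i) → finrank W.K ((W.gr Y i).map ε) = 0 := by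
    intro i hi
    have h1 : (W.gr Y i).map ε = ⊥ := by
      rw [eq_bot_iff]
      rintro _ ⟨x, hx, rfl⟩
      have h2 : ε x = 0 := by
        rw [← hr, Module.End.mul_apply, hQ i hi x hx, map_zero]
      rw [h2]
      exact Submodule.zero_mem _
    rw [h1, finrank_bot]
  rw [St.Mom, St.Mom, St.MomOf, St.MomOf, mul_sum, mul_sum]
  constructor
  · refine sum_le_sum fun i _ => ?_
    by_cases hi : i < a ∨ b < i
    · rw [key i hi]
      simp
    · have h1 : (a : ℤ) ≤ i := by omega
      rw [one_mul]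
      exact mul_le_mul_of_nonneg_right h1 (by positivity)
  · refine sum_le_sum fun i _ => ?_
    by_cases hi : i < a ∨ b < i
    · rw [key i hi]
      simp
    · have h1 : (i : ℤ) ≤ b := by omega
      rw [one_mul]
      exact mul_le_mul_of_nonneg_right h1 (by positivity)

lemma mom_pos {ε : Module.End W.K (W.H Y)} (hε : ε ∈ KOp W Y Y 0) (hidem : ε * ε = ε)
    (h0 : ε ≠ 0) : 0 < St.Mom W Y ε (fun _ => 1) := by
  have h1 : 0 ≤ St.Mom W Y ε (fun _ => 1) := by
    rw [St.Mom, St.MomOf]
    exact sum_nonneg fun i _ => by positivity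
  refine lt_of_le_of_ne h1 fun h2 => h0 ?_
  have c1 := mom_cast hε hidem (fun _ => 1)
  rw [← h2, tsc] at c1
  have h3 : scal (W.isInternal Y) (fun _ => (((1 : ℤ)) : W.K)) = 1 := by
    rw [Int.cast_one, scal_one]
  rw [h3, mul_one, Int.cast_zero] at c1
  exact eq_zero_of_trace_idem hidem c1.symm

lemma ineq {S C t τ n a b : ℤ} (hn : 0 < n) (ht : 0 < t) (h : S * τ = n * t * C)
    (h1 : n * a * t ≤ τ) (h2 : τ ≤ n * b * t) : 0 ≤ (C - a * S) * (b * S - C) := by
  have h3 : (n * t) ^ 2 * ((C - a * S) * (b * S - C)) =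
      S ^ 2 * ((τ - n * a * t) * (n * b * t - τ)) := by
    have e1 : n * t * (C - a * S) = S * (τ - n * a * t) := by linear_combination -h
    have e2 : n * t * (b * S - C) = S * (n * b * t - τ) := by linear_combination h
    calc (n * t) ^ 2 * ((C - a * S) * (b * S - C))
        = (n * t * (C - a * S)) * (n * t * (b * S - C)) := by ring
      _ = _ := by rw [e1, e2]; ring
  have h4 : 0 ≤ (n * t) ^ 2 * ((C - a * S) * (b * S - C)) := by
    rw [h3]
    exact mul_nonneg (sq_nonneg _) (mul_nonneg (by linarith) (by linarith))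
  have h5 : 0 < (n * t) ^ 2 := by positivity
  exact nonneg_of_mul_nonneg_right h4 h5

/-- The bounds for the centre. -/
theorem centre_bounds {e : Module.End W.K (W.H X)} (he : e ∈ KOp W X X 0) (hee : e * e = e)
    (hind : Indecomposable W e) {n : ℕ} (hn : 1 ≤ n) {ε : Module.End W.K (W.H (pw X n))}
    (hε : IsSummand W (powOp W e n) ε) (h0 : ε ≠ 0) (hs : SignOf W (pw X n) ε) {a b : ℕ}
    (hab : St.Between W X e a b) :
    0 ≤ (St.Mom W X e (fun i => (-1) ^ i * i) - a * St.Mom W X e (fun i => (-1) ^ i)) *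
      (b * St.Mom W X e (fun i => (-1) ^ i) - St.Mom W X e (fun i => (-1) ^ i * i)) := by
  obtain ⟨m, rfl⟩ : ∃ m, n = m + 1 := ⟨n - 1, by omega⟩
  have hk : ε ∈ KOp W (pw X (m + 1)) (pw X (m + 1)) 0 := by
    rw [← algOps_eq]
    exact hε.alg
  obtain ⟨h1, h2⟩ := mom_between (pow_between hab m) hε.right
  have h3 := centre_sign he hee hind hn hε hs
  have h4 := mom_pos hk hε.idem h0
  push_cast at h1 h2 h3
  exact ineq (n := (m : ℤ) + 1) (by positivity) h4 h3 h1 h2

end Pool.Agent.D0H31.SG
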