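import Pool.Agent.D0H31.SG.Pow

/-!
# The contraction argument
-/

set_option autoImplicit false

open CategoryTheory AlgebraicGeometry Finset TensorProduct Module Polynomial

universe u v

namespace Pool.Agent.D0H31.SG

open Pool.Agent.H914 VarClass Obj WeilCohomology Pool.Agent.N190.CB Pool.Agent.N103.OC
  Pool.Agent.TH133.PW Pool.Agent.H447 Pool.Agent.N536.SG Pool.Agent.N536.HK

variable {k : Type u} [Field k] {𝒱 : VarClass k} {ops : CycleOps 𝒱}
  {W : WeilCohomology.{u, v} ops} {X Y Z : 𝒱.Obj}

/-- The operator of a class on `X × X` of degree `i` and the parity. -/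
lemma corr_par {i : ℕ} {c : W.H (X.prod X)} (hc : c ∈ W.gr (X.prod X) i) :
    par (W.isInternal X) * W.corr c * par (W.isInternal X) = (-1 : W.K) ^ i • W.corr c := by
  apply gr_ext (W.isInternal X)
  intro j x hx
  have h1 := W.push_mem (snd X X) (W.mul_mem hc (W.map_mem (fst X X) hx))
  rw [Module.End.mul_apply, Module.End.mul_apply, par, scal_apply _ _ hx, map_smul, map_smul,
    LinearMap.smul_apply, corr_apply]
  by_cases h2 : 0 ≤ ((i + j : ℕ) : ℤ) + 2 * ((X.dim : ℤ) - (X.prod X).dim)
  · obtain ⟨l, hl⟩ := Int.eq_ofNat_of_zero_le h2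
    rw [hl, grZ_natCast] at h1
    rw [scal_apply _ _ h1, smul_smul]
    congr 1
    have h3 : j + l + 2 * X.dim = 2 * j + i := by
      have h4 : ((i + j : ℕ) : ℤ) + 2 * ((X.dim : ℤ) - (X.dim + X.dim : ℕ)) = l := hl
      push_cast at h4
      omega
    have h5 : (-1 : W.K) ^ (j + l + 2 * X.dim) = (-1 : W.K) ^ (2 * j + i) := by rw [h3]
    rw [pow_add, pow_mul, pow_add (-1 : W.K) (2 * j), pow_mul (-1 : W.K) 2 j] at h5
    simpa [pow_add] using h5
  · rw [grZ_of_neg (by omega), Submodule.mem_bot] at h1
    rw [h1, map_zero, smul_zero, smul_zero]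

/-- An additive property of the operators of even classes holds for the operators which preserve the
parity. -/
lemma even_induction {p : Module.End W.K (W.H X) → Prop} (h0 : p 0)
    (hadd : ∀ a b, p a → p b → p (a + b))
    (h : ∀ r, ∀ c ∈ W.gr (X.prod X) (2 * r), p (W.corr c)) {F : Module.End W.K (W.H X)}
    (hF : PreservesParity W F) : p F := by
  obtain ⟨τ, rfl⟩ := exists_corr F
  have key : ∀ τ : W.H (X.prod X), p ((2 : W.K)⁻¹ • (W.corr τ +
      par (W.isInternal X) * W.corr τ * par (W.isInternal X))) := by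
    intro τ
    refine gr_induction (W.isInternal (X.prod X)) (p := fun τ => p ((2 : W.K)⁻¹ • (W.corr τ +
      par (W.isInternal X) * W.corr τ * par (W.isInternal X)))) ?_ ?_ τ
    · intro i c hc
      rw [corr_par hc]
      rcases Nat.even_or_odd i with hi | hi
      · rw [hi.neg_one_pow, one_smul, ← two_smul W.K (W.corr c), smul_smul,
          inv_mul_cancel₀ two_ne_zero, one_smul]
        obtain ⟨r, rfl⟩ := hi
        rw [← two_mul] at hc
        exact h r c hc
      · rw [hi.neg_one_pow]
        convert h0 using 1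
        apply LinearMap.ext
        intro x
        simp
    · intro a b ha hb
      have e1 : (2 : W.K)⁻¹ • (W.corr (a + b) +
          par (W.isInternal X) * W.corr (a + b) * par (W.isInternal X)) =
          (2 : W.K)⁻¹ • (W.corr a + par (W.isInternal X) * W.corr a * par (W.isInternal X)) +
          (2 : W.K)⁻¹ • (W.corr b + par (W.isInternal X) * W.corr b * par (W.isInternal X)) := by
        rw [corr_add, mul_add, add_mul, ← smul_add]
        congr 1
        abel
      rw [e1]
      exact hadd _ _ ha hb
  have h2 := key τ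
  have h3 : par (W.isInternal X) * W.corr τ * par (W.isInternal X) = W.corr τ := by
    rw [mul_assoc, hF, ← mul_assoc, par_mul_par, one_mul]
  rw [h3, ← two_smul W.K (W.corr τ), smul_smul, inv_mul_cancel₀ two_ne_zero, one_smul] at h2
  exact h2

lemma pp_one : PreservesParity W (1 : Module.End W.K (W.H X)) := by
  unfold PreservesParity
  rw [one_mul, mul_one]

lemma pp_mul {F G : Module.End W.K (W.H X)} (hF : PreservesParity W F)
    (hG : PreservesParity W G) : PreservesParity W (F * G) := by
  unfold PreservesParity at *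
  rw [mul_assoc, hG, ← mul_assoc, hF, mul_assoc]

lemma pp_add {F G : Module.End W.K (W.H X)} (hF : PreservesParity W F)
    (hG : PreservesParity W G) : PreservesParity W (F + G) := by
  unfold PreservesParity at *
  rw [mul_add, add_mul, hF, hG]

lemma pp_sub {F G : Module.End W.K (W.H X)} (hF : PreservesParity W F)
    (hG : PreservesParity W G) : PreservesParity W (F - G) := by
  unfold PreservesParity at *
  rw [mul_sub, sub_mul, hF, hG]

lemma pp_kop {F : Module.End W.K (W.H X)} (hF : F ∈ KOp W X X 0) : PreservesParity W F :=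
  (par_comm hF).symm

lemma pp_ext {F : Module.End W.K (W.H Y)} {G : Module.End W.K (W.H X)}
    (hF : PreservesParity W F) (hG : PreservesParity W G) :
    PreservesParity W (extOp W F G) := by
  unfold PreservesParity at *
  rw [par_prod, extOp_mul, extOp_mul, hF, hG]

lemma pp_dd {D : Module.End W.K (W.H Y)} {G : Module.End W.K (W.H X)}
    (hD : PreservesParity W D) (hG : PreservesParity W G) : PreservesParity W (dd W D G) :=
  pp_add (pp_ext hD pp_one) (pp_ext pp_one hG)

lemma pp_derOp {G : Module.End W.K (W.H X)} (hG : PreservesParity W G) (n : ℕ) :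
    PreservesParity W (derOp W G n) := by
  induction n using Nat.twoStepInduction with
  | zero => exact hG
  | one => exact hG
  | more n _ ih => exact pp_dd (Y := pw X (n + 1)) ih hG

/-- The partial trace over the first factor. -/
lemma ptrace_even {A : Module.End W.K (W.H (Y.prod X))}
    (hA : A ∈ KOp W (Y.prod X) (Y.prod X) 0) :
    ∃ T ∈ KOp W X X 0, ∀ F : Module.End W.K (W.H X), PreservesParity W F →
      str W (Y.prod X) (A * extOp W 1 F) = str W X (T * F) := by
  obtain ⟨T, hT, h1⟩ := exists_ptrace' hA (KOp.id Y)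
  refine ⟨T, KOp.cast hT (by ring), fun F hF => ?_⟩
  refine even_induction (p := fun F => str W (Y.prod X) (A * extOp W 1 F) = str W X (T * F))
    ?_ ?_ ?_ hF
  · rw [extOp_zero_right, mul_zero, mul_zero, map_zero, map_zero]
  · intro a b ha hb
    rw [extOp_add_right, mul_add, map_add, ha, hb, mul_add, map_add]
  · intro r c hc
    exact h1 hc

/-- The contraction of an algebraic operator with a derivation. -/
lemma str_dd {A : Module.End W.K (W.H (Y.prod X))}
    (hA : A ∈ KOp W (Y.prod X) (Y.prod X) 0) :
    ∃ T1 ∈ KOp W Y Y 0, ∃ T2 ∈ KOp W X X 0, ∀ (D : Module.End W.K (W.H Y))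
      (F : Module.End W.K (W.H X)), PreservesParity W F →
      str W (Y.prod X) (A * dd W D F) = str W Y (T1 * D) + str W X (T2 * F) := by
  obtain ⟨T1, hT1, h1⟩ := exists_ptrace hA (KOp.id X)
  obtain ⟨T2, hT2, h2⟩ := ptrace_even hA
  refine ⟨T1, KOp.cast hT1 (by ring), T2, hT2, fun D F hF => ?_⟩
  obtain ⟨f, hf⟩ := corr_bijective.2 D
  have hf' : W.corr f = D := hf
  rw [dd, mul_add, map_add, ← hf', h2 F hF]
  exact congrArg (· + str W X (T2 * F)) (h1 f)

/-- The contraction of an algebraic operator on a power with a derivation. -/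
lemma exists_contr (n : ℕ) {A : Module.End W.K (W.H (pw X (n + 1)))}
    (hA : A ∈ KOp W (pw X (n + 1)) (pw X (n + 1)) 0) :
    ∃ T ∈ KOp W X X 0, ∀ F : Module.End W.K (W.H X), PreservesParity W F →
      str W (pw X (n + 1)) (A * derOp W F (n + 1)) = str W X (T * F) := by
  induction n with
  | zero => exact ⟨A, hA, fun F _ => rfl⟩
  | succ n ih =>
    obtain ⟨T1, hT1, T2, hT2, h⟩ := str_dd (Y := pw X (n + 1)) hA
    obtain ⟨T, hT, h'⟩ := ih hT1
    refine ⟨T + T2, Submodule.add_mem _ hT hT2, fun F hF => ?_⟩
    have h3 := h (derOp W F (n + 1)) F hF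
    rw [h' F hF, ← map_add, ← add_mul] at h3
    exact h3

/-- The sign conjecture for a summand in terms of the parity operator. -/
lemma signOf_iff {f : Module.End W.K (W.H Y)} (hf : f ∈ KOp W Y Y 0) :
    SignOf W Y f ↔ par (W.isInternal Y) * f ∈ KOp W Y Y 0 := by
  unfold SignOf
  rw [algOps_eq]
  constructor
  · rintro ⟨P, hP, h⟩
    have h1 : par (W.isInternal Y) * f = (2 : W.K) • P - f := by
      apply gr_ext (W.isInternal Y)
      intro i x hx
      rw [Module.End.mul_apply, par, scal_apply _ _ (kop_gr hf i hx), LinearMap.sub_apply,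
        LinearMap.smul_apply, h i x hx]
      split_ifs with hi
      · rw [hi.neg_one_pow]
        module
      · rw [(Nat.not_even_iff_odd.1 hi).neg_one_pow]
        module
    rw [h1]
    exact Submodule.sub_mem _ (Submodule.smul_mem _ _ hP) hf
  · intro h
    refine ⟨(2 : W.K)⁻¹ • (par (W.isInternal Y) * f + f),
      Submodule.smul_mem _ _ (Submodule.add_mem _ h hf), fun i x hx => ?_⟩
    rw [LinearMap.smul_apply, LinearMap.add_apply, Module.End.mul_apply, par,
      scal_apply _ _ (kop_gr hf i hx)]
    split_ifs with hi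
    · rw [hi.neg_one_pow, one_smul, ← two_smul W.K (f x), smul_smul,
        inv_mul_cancel₀ two_ne_zero, one_smul]
    · rw [(Nat.not_even_iff_odd.1 hi).neg_one_pow]
      simp

/-- The sign conjecture for a variety. -/
lemma signOf_one_iff : SignOf W X 1 ↔ SignStd W X := by
  constructor
  · rintro ⟨P, hP, h⟩
    exact signStd_of_span ⟨P, hP, fun j x hx => h j x hx⟩
  · rintro ⟨z, hz, hP⟩
    exact ⟨_, Submodule.subset_span ⟨z, hz, rfl⟩, hP⟩

end Pool.Agent.D0H31.SG
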