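import Pool.Agent.N536.HK.Defs
import Pool.Agent.H914R2.ExtOp
import Pool.Agent.H447R3.KuB

/-!
# Invariant direct summands of the powers of a motive: definitions
-/

open CategoryTheory AlgebraicGeometry

set_option autoImplicit false

universe u v

namespace Pool.Agent.D0H31.SG

open Pool.Agent.H914 VarClass Obj WeilCohomology Pool.Agent.N103.OC Pool.Agent.TH133.PW
  Pool.Agent.H447

variable {k : Type u} [Field k] {𝒱 : VarClass k} {ops : CycleOps 𝒱}

/-- `e ⊗ ... ⊗ e` on the cohomology of `X ^ n`. -/
noncomputable def powOp (W : WeilCohomology.{u, v} ops) {X : 𝒱.Obj} (e : Module.End W.K (W.H X)) :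
    (n : ℕ) → Module.End W.K (W.H (pw X n))
  | 0 => e
  | 1 => e
  | n + 2 => extOp W (Y := pw X (n + 1)) (powOp W e (n + 1)) e

/-- `G ⊗ 1 ⊗ ... ⊗ 1 + 1 ⊗ G ⊗ ... ⊗ 1 + ... + 1 ⊗ ... ⊗ 1 ⊗ G` on the cohomology of `X ^ n`. -/
noncomputable def derOp (W : WeilCohomology.{u, v} ops) {X : 𝒱.Obj} (G : Module.End W.K (W.H X)) :
    (n : ℕ) → Module.End W.K (W.H (pw X n))
  | 0 => G
  | 1 => G
  | n + 2 => extOp W (Y := pw X (n + 1)) (derOp W G (n + 1)) 1 + extOp W (Y := pw X (n + 1)) 1 G

/-- `G` maps `H^i(X)` to the sum of the `H^j(X)` with `j - i` even. -/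
def PreservesParity (W : WeilCohomology.{u, v} ops) {X : 𝒱.Obj} (G : Module.End W.K (W.H X)) :
    Prop :=
  G * par (W.isInternal X) = par (W.isInternal X) * G

/-- The combinations, with coefficients in `K`, of the operators induced by the algebraic cycles of
codimension `dim Y` on `Y × Y`. -/
def algOps (W : WeilCohomology.{u, v} ops) (Y : 𝒱.Obj) : Submodule W.K (W.H Y →ₗ[W.K] W.H Y) :=
  Submodule.span W.K (cycleOperators W Y Y.dim)

/-- The sign conjecture for the direct summand of `h(Y)` given by `f`: the operator which is `f` on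
the even and zero on the odd cohomology of `Y` is algebraic. -/
def SignOf (W : WeilCohomology.{u, v} ops) (Y : 𝒱.Obj) (f : Module.End W.K (W.H Y)) : Prop :=
  ∃ P ∈ algOps W Y, ∀ j, ∀ x ∈ W.gr Y j, P x = if Even j then f x else 0

/-- The operator which is `e` on the even and zero on the odd cohomology of `X`. -/
noncomputable def evenPart (W : WeilCohomology.{u, v} ops) {X : 𝒱.Obj}
    (e : Module.End W.K (W.H X)) : Module.End W.K (W.H X) := e * evenProj (W.isInternal X)

/-- The operators on `V`, the image of `e`, which preserve the parity of the degrees. -/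
def parityOps (W : WeilCohomology.{u, v} ops) {X : 𝒱.Obj} (e : Module.End W.K (W.H X)) :
    Set (Module.End W.K (W.H X)) := {G | PreservesParity W G ∧ e * G = G ∧ G * e = G}

/-- `B` has only one eigenvalue on the even part and only one eigenvalue on the odd part of the image
of `e`. -/
def OneEigenvalue (W : WeilCohomology.{u, v} ops) {X : 𝒱.Obj} (e B : Module.End W.K (W.H X)) :
    Prop :=
  ∃ (a b : W.K) (N : ℕ), ∀ j, ∀ x ∈ W.gr X j, e x = x →
    ((B - (if Even j then a else b) • (1 : Module.End W.K (W.H X))) ^ N) x = 0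

/-- The algebraic operators on `V`, the image of `e`, which commute with the operators in `L` have only
one eigenvalue on the even part and only one eigenvalue on the odd part of `V`. -/
def Rigid (W : WeilCohomology.{u, v} ops) {X : 𝒱.Obj} (e : Module.End W.K (W.H X))
    (L : Set (Module.End W.K (W.H X))) : Prop :=
  ∀ B ∈ algOps W X, e * B = B → B * e = B → (∀ G ∈ L, G * B = B * G) → OneEigenvalue W e B

/-- `ε` is algebraic and the projector onto a direct summand of the motive `(Y, p)`. -/
structure IsSummand (W : WeilCohomology.{u, v} ops) {Y : 𝒱.Obj} (p ε : Module.End W.K (W.H Y)) :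
    Prop where
  alg : ε ∈ algOps W Y
  idem : ε * ε = ε
  left : p * ε = ε
  right : ε * p = ε

/-- `ε` is a direct summand of `M ⊗ ... ⊗ M` (`n` factors), `M = (X, e)`, which is stable, together with
its complement, under the derivations given by the operators in `L` and which is compatible with the
decomposition of `V ⊗ ... ⊗ V`, `V` the image of `e`, by the number of odd factors. -/
structure IsInvariant (W : WeilCohomology.{u, v} ops) {X : 𝒱.Obj} (e : Module.End W.K (W.H X))
    (L : Set (Module.End W.K (W.H X))) (n : ℕ) (ε : Module.End W.K (W.H (pw X n))) : Prop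
    extends IsSummand W (powOp W e n) ε where
  even : Commute ε (derOp W (evenPart W e) n)
  comm : ∀ G ∈ L, Commute ε (derOp W G n)

/-- The same for `N ⊗ M ⊗ ... ⊗ M` (`n` factors `M`), `N = (Y, f)` and `M = (X, e)`. -/
structure IsInvariantIn (W : WeilCohomology.{u, v} ops) {Y X : 𝒱.Obj}
    (f : Module.End W.K (W.H Y)) (e : Module.End W.K (W.H X))
    (L : Set (Module.End W.K (W.H X))) (n : ℕ) (ε : Module.End W.K (W.H (Y.prod (pw X n)))) : Prop
    extends IsSummand W (extOp W f (powOp W e n)) ε where
  even : Commute ε (extOp W 1 (derOp W (evenPart W e) n))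
  comm : ∀ G ∈ L, Commute ε (extOp W 1 (derOp W G n))

/-- Each algebraic operator on `V`, the image of `e`, is the sum of a scalar and a nilpotent operator:
the direct summand of `h(X)` given by `e` is absolutely indecomposable. -/
def Indecomposable (W : WeilCohomology.{u, v} ops) {X : 𝒱.Obj} (e : Module.End W.K (W.H X)) :
    Prop :=
  ∀ B ∈ algOps W X, e * B = B → B * e = B → ∃ c : W.K, IsNilpotent (B - c • e)

/-- The image of `e` is contained in the even or in the odd cohomology of `X`. -/
def IsPure (W : WeilCohomology.{u, v} ops) {X : 𝒱.Obj} (e : Module.End W.K (W.H X)) : Prop :=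
  (∀ j, Odd j → ∀ x ∈ W.gr X j, e x = 0) ∨ (∀ j, Even j → ∀ x ∈ W.gr X j, e x = 0)

/-- The image of `e` is contained in `H^i(X) + H^j(X)`. -/
def InDegrees (W : WeilCohomology.{u, v} ops) {X : 𝒱.Obj} (e : Module.End W.K (W.H X))
    (i j : ℕ) : Prop := ∀ l, l ≠ i → l ≠ j → ∀ x ∈ W.gr X l, e x = 0

end Pool.Agent.D0H31.SG
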