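import Pool.Agent.N536.HK.Main

/-!
# Spectral decompositions with natural eigenvalues
-/

set_option autoImplicit false

open Module Finset

namespace Pool.Agent.D0H31.SG

variable {K V : Type*} [Field K] [CharZero K] [AddCommGroup V] [Module K V]

/-- `D` is the sum of the `i • E i`, `i ≤ n`, for orthogonal idempotents `E i` with sum one. -/
structure Spec (n : ℕ) (D : Module.End K V) (E : ℕ → Module.End K V) : Prop where
  orth : ∀ i j, i ≠ j → E i * E j = 0
  zero : ∀ i, n < i → E i = 0
  sum : ∑ i ∈ range (n + 1), E i = 1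
  eq : D = ∑ i ∈ range (n + 1), (i : K) • E i

variable {n : ℕ} {D ε : Module.End K V} {E : ℕ → Module.End K V}

omit [CharZero K] in
lemma Spec.idem (h : Spec n D E) {i : ℕ} (hi : i ∈ range (n + 1)) : E i * E i = E i := by
  have h1 : E i * ∑ j ∈ range (n + 1), E j = E i := by rw [h.sum, mul_one]
  rw [mul_sum, sum_eq_single_of_mem i hi (fun j _ hj => h.orth i j (Ne.symm hj))] at h1
  exact h1

omit [CharZero K] in
lemma Spec.mul_right (h : Spec n D E) {i : ℕ} (hi : i ∈ range (n + 1)) :
    E i * D = (i : K) • E i := by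
  rw [h.eq, mul_sum, sum_eq_single_of_mem i hi, mul_smul_comm, h.idem hi]
  intro j _ hj
  rw [mul_smul_comm, h.orth i j (Ne.symm hj), smul_zero]

omit [CharZero K] in
lemma Spec.mul_left (h : Spec n D E) {i : ℕ} (hi : i ∈ range (n + 1)) :
    D * E i = (i : K) • E i := by
  rw [h.eq, sum_mul, sum_eq_single_of_mem i hi, smul_mul_assoc, h.idem hi]
  intro j _ hj
  rw [smul_mul_assoc, h.orth j i hj, smul_zero]

lemma Spec.cross (h : Spec n D E) (hε : ε * D = D * ε) {i j : ℕ} (hi : i ∈ range (n + 1))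
    (hj : j ∈ range (n + 1)) (hij : i ≠ j) : E i * ε * E j = 0 := by
  have h1 : E i * ε * (D * E j) = E i * D * ε * E j := by
    rw [← mul_assoc, mul_assoc (E i) ε D, hε, ← mul_assoc (E i) D ε]
  rw [h.mul_left hj, h.mul_right hi, mul_smul_comm, smul_mul_assoc, smul_mul_assoc,
    ← sub_eq_zero, ← sub_smul] at h1
  refine (smul_eq_zero.1 h1).resolve_left (sub_ne_zero.2 ?_)
  exact_mod_cast Ne.symm hij

lemma Spec.comm (h : Spec n D E) (hε : ε * D = D * ε) {i : ℕ} (hi : i ∈ range (n + 1)) :
    ε * E i = E i * ε := by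
  have h1 : (∑ j ∈ range (n + 1), E j) * (ε * E i) = E i * ε * E i := by
    rw [sum_mul, sum_eq_single_of_mem i hi, mul_assoc]
    intro j hj hji
    rw [← mul_assoc, h.cross hε hj hi hji]
  have h2 : (E i * ε) * (∑ j ∈ range (n + 1), E j) = E i * ε * E i := by
    rw [mul_sum, sum_eq_single_of_mem i hi]
    intro j hj hji
    rw [h.cross hε hi hj (Ne.symm hji)]
  rw [h.sum, one_mul] at h1
  rw [h.sum, mul_one] at h2
  exact h1.trans h2.symm

/-- The trace of the product with a commuting idempotent is a natural number. -/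
lemma Spec.trace [FiniteDimensional K V] (h : Spec n D E) (hε : ε * D = D * ε)
    (hεε : ε * ε = ε) : ∃ a : ℕ, LinearMap.trace K V (ε * D) = a := by
  refine ⟨∑ i ∈ range (n + 1), i * finrank K (LinearMap.range (ε * E i)), ?_⟩
  rw [h.eq, mul_sum, map_sum]
  push_cast
  refine sum_congr rfl fun i hi => ?_
  have h1 : (ε * E i) * (ε * E i) = ε * E i := by
    rw [← mul_assoc, mul_assoc ε (E i) ε, ← h.comm hε hi, ← mul_assoc, hεε, mul_assoc, h.idem hi]
  rw [mul_smul_comm, map_smul, smul_eq_mul, Pool.Agent.N536.HK.trace_idem h1]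

lemma eq_zero_of_trace_idem [FiniteDimensional K V] (hεε : ε * ε = ε)
    (h : LinearMap.trace K V ε = 0) : ε = 0 := by
  rw [Pool.Agent.N536.HK.trace_idem hεε] at h
  have h1 : finrank K (LinearMap.range ε) = 0 := by exact_mod_cast h
  exact LinearMap.range_eq_bot.1 (Submodule.finrank_eq_zero.1 h1)

end Pool.Agent.D0H31.SG
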