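import Pool.Agent.D0H31.SG.Rig

/-!
# The sign conjecture for a motive and for the invariant pieces of its powers
-/

set_option autoImplicit false

open CategoryTheory AlgebraicGeometry Finset TensorProduct Module

universe u v

namespace Pool.Agent.D0H31.SG

open Pool.Agent.H914 VarClass Obj WeilCohomology Pool.Agent.N190.CB Pool.Agent.N103.OC
  Pool.Agent.TH133.PW Pool.Agent.H447 Pool.Agent.N536.SG Pool.Agent.N536.HK

variable {k : Type u} [Field k] {𝒱 : VarClass k} {ops : CycleOps 𝒱}
  {W : WeilCohomology.{u, v} ops} {X Y Z : 𝒱.Obj}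

/-- An operator valued map which behaves like the derivation on a power. -/
structure DerLike (W : WeilCohomology.{u, v} ops) (P X : 𝒱.Obj)
    (Δ : Module.End W.K (W.H X) →ₗ[W.K] Module.End W.K (W.H P)) (e : Module.End W.K (W.H X))
    (Q : Module.End W.K (W.H P)) (c : ℕ) : Prop where
  comm : ∀ G G', Δ G * Δ G' - Δ G' * Δ G = Δ (G * G' - G' * G)
  hom : ∀ F, PreservesParity W F → PreservesParity W (Δ F)
  compress : ∀ F, Q * Δ (e * F * e) * Q = Q * Δ F * Q
  spec : ∀ p, p * p = p → ∃ E, Spec c (Δ p) E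
  top : Q * Δ e = (c : W.K) • Q
  top' : Δ e * Q = (c : W.K) • Q
  contr : ∀ A ∈ KOp W P P 0, ∃ T ∈ KOp W X X 0, ∀ F, PreservesParity W F →
    str W P (A * Δ F) = str W X (T * F)

/-- The functional. -/
noncomputable def Lfun (W : WeilCohomology.{u, v} ops) {P X : 𝒱.Obj}
    (Δ : Module.End W.K (W.H X) →ₗ[W.K] Module.End W.K (W.H P))
    (ε : Module.End W.K (W.H P)) : Module.End W.K (W.H X) →ₗ[W.K] W.K :=
  LinearMap.trace W.K (W.H P) ∘ₗ LinearMap.mulLeft W.K ε ∘ₗ Δ

section Core

variable {P : 𝒱.Obj} {Δ : Module.End W.K (W.H X) →ₗ[W.K] Module.End W.K (W.H P)}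
  {e : Module.End W.K (W.H X)} {Q ε : Module.End W.K (W.H P)} {c : ℕ}

lemma Lfun_apply (F : Module.End W.K (W.H X)) :
    Lfun W Δ ε F = LinearMap.trace W.K (W.H P) (ε * Δ F) := rfl

lemma DerLike.Lfun_compress (h : DerLike W P X Δ e Q c) (hl : Q * ε = ε) (hr : ε * Q = ε)
    (F : Module.End W.K (W.H X)) : Lfun W Δ ε (e * F * e) = Lfun W Δ ε F := by
  have h1 : ∀ D : Module.End W.K (W.H P), LinearMap.trace W.K (W.H P) (ε * D) =
      LinearMap.trace W.K (W.H P) (ε * (Q * D * Q)) := by
    intro D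
    rw [← mul_assoc, ← mul_assoc, hr, LinearMap.trace_mul_comm (R := W.K) (ε * D), ← mul_assoc,
      hl]
  rw [Lfun_apply, Lfun_apply, h1, h1 (Δ F), h.compress]

lemma DerLike.Lfun_comm (h : DerLike W P X Δ e Q c) {G : Module.End W.K (W.H X)}
    (hG : ε * Δ G = Δ G * ε) (G' : Module.End W.K (W.H X)) :
    Lfun W Δ ε (G * G') = Lfun W Δ ε (G' * G) := by
  rw [← sub_eq_zero, ← map_sub, Lfun_apply, ← h.comm, mul_sub, map_sub, sub_eq_zero,
    ← mul_assoc, ← mul_assoc, hG, mul_assoc, LinearMap.trace_mul_comm]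

/-- An operator which preserves the parity is zero if it is orthogonal to all such operators. -/
lemma eq_zero_of_pp {Z : Module.End W.K (W.H X)} (hZ : PreservesParity W Z)
    (h : ∀ F : Module.End W.K (W.H X), PreservesParity W F →
      LinearMap.trace W.K (W.H X) (Z * F) = 0) : Z = 0 := by
  apply eq_zero_of_trace
  intro F
  set p := par (W.isInternal X) with hp
  have hpp : p * p = 1 := par_mul_par _
  have h1 : PreservesParity W (F + p * F * p) := by
    unfold PreservesParity
    rw [← hp, add_mul, mul_add, mul_assoc (p * F) p p, hpp, mul_one, ← mul_assoc p (p * F) p,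
      ← mul_assoc p p F, hpp, one_mul, add_comm]
  have h2 := h _ h1
  have h3 : LinearMap.trace W.K (W.H X) (Z * (p * F * p)) =
      LinearMap.trace W.K (W.H X) (Z * F) := by
    have h4 : Z * (p * F * p) = (Z * p * F) * p := by noncomm_ring
    have h5 : p * (Z * p * F) = Z * F := by
      rw [hZ, ← hp, ← mul_assoc, ← mul_assoc, hpp, one_mul]
    rw [h4, LinearMap.trace_mul_comm, h5]
  rw [mul_add, map_add, h3, ← two_mul] at h2
  exact (mul_eq_zero.1 h2).resolve_left two_ne_zero

/-- **The main theorem, ascent.** -/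
theorem DerLike.signOf (hd : DerLike W P X Δ e Q c) (hc : c ≠ 0) (he : e ∈ KOp W X X 0)
    (hee : e * e = e) {L : Set (Module.End W.K (W.H X))} (hL : L ⊆ parityOps W e)
    (hrig : Rigid W e L) (hε : ε ∈ KOp W P P 0) (hidem : ε * ε = ε) (hl : Q * ε = ε)
    (hr : ε * Q = ε) (heven : ε * Δ (evenPart W e) = Δ (evenPart W e) * ε)
    (hcomm : ∀ G ∈ L, ε * Δ G = Δ G * ε) (h0 : ε ≠ 0) (h : SignOf W P ε) : SignOf W X e := by
  rw [signOf_iff hε] at h
  obtain ⟨T, hT, hTF⟩ := hd.contr _ h
  have hTL : ∀ F : Module.End W.K (W.H X), PreservesParity W F →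
      Lfun W Δ ε F = str W X (T * F) := by
    intro F hF
    rw [← hTF F hF, Lfun_apply, str_apply, ← mul_assoc, ← mul_assoc, par_mul_par, one_mul]
  set B : Module.End W.K (W.H X) := e * T * e with hBdef
  have hB : B ∈ KOp W X X 0 := kop_mul (kop_mul he hT) he
  have h1 : e * B = B := by rw [hBdef, ← mul_assoc, ← mul_assoc, hee]
  have h2 : B * e = B := by rw [hBdef, mul_assoc, hee]
  have hpe : par (W.isInternal X) * e = e * par (W.isInternal X) := par_comm he
  have hBL : ∀ F : Module.End W.K (W.H X), PreservesParity W F →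
      Lfun W Δ ε F = str W X (B * F) := by
    intro F hF
    rw [← hd.Lfun_compress hl hr, hTL _ (pp_mul (pp_mul (pp_kop he) hF) (pp_kop he)), str_apply,
      str_apply, hBdef]
    have e1 : par (W.isInternal X) * (e * T * e * F) =
        e * (par (W.isInternal X) * T * e * F) := by
      have e2 : ∀ Z : Module.End W.K (W.H X), par (W.isInternal X) * (e * Z) =
          e * (par (W.isInternal X) * Z) := fun Z => by rw [← mul_assoc, hpe, mul_assoc]
      simp only [mul_assoc]
      rw [e2]
    rw [e1, LinearMap.trace_mul_comm W.K e]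
    simp only [mul_assoc]
  have hBG : ∀ G ∈ L, G * B = B * G := by
    intro G hG
    obtain ⟨g1, -, -⟩ := hL hG
    have hZ : PreservesParity W (par (W.isInternal X) * (B * G - G * B)) :=
      pp_mul rfl (pp_sub (pp_mul (pp_kop hB) g1) (pp_mul g1 (pp_kop hB)))
    have h3 : par (W.isInternal X) * (B * G - G * B) = 0 := by
      refine eq_zero_of_pp hZ fun F hF => ?_
      have h4 := hd.Lfun_comm (hcomm G hG) F
      rw [hBL _ (pp_mul g1 hF), hBL _ (pp_mul hF g1), str_apply, str_apply] at h4
      have e1 : par (W.isInternal X) * (B * G - G * B) * F =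
          par (W.isInternal X) * (B * (G * F)) - par (W.isInternal X) * (G * (B * F)) := by
        simp only [mul_sub, sub_mul, mul_assoc]
      have e2 : LinearMap.trace W.K (W.H X) (par (W.isInternal X) * (G * (B * F))) =
          LinearMap.trace W.K (W.H X) (par (W.isInternal X) * (B * (F * G))) := by
        rw [← mul_assoc, ← g1, mul_assoc, LinearMap.trace_mul_comm]
        simp only [mul_assoc]
      rw [e1, map_sub, e2, h4, sub_self]
    have h5 : par (W.isInternal X) * (par (W.isInternal X) * (B * G - G * B)) = 0 := by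
      rw [h3, mul_zero]
    rw [← mul_assoc, par_mul_par, one_mul, sub_eq_zero] at h5
    exact h5.symm
  have hB' : B ∈ algOps W X := by rw [algOps_eq]; exact hB
  have hone := hrig B hB' h1 h2 hBG
  -- the values of the functional
  have hspec : ∀ p : Module.End W.K (W.H X), p * p = p → ε * Δ p = Δ p * ε →
      ∃ a : ℕ, Lfun W Δ ε p = a := by
    intro p h3 h4
    obtain ⟨E, hE⟩ := hd.spec p h3
    exact hE.trace h4 hidem
  have htop : ε * Δ e = (c : W.K) • ε := by
    conv_lhs => rw [← hr]
    rw [mul_assoc, hd.top, mul_smul_comm, hr]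
  have htop' : Δ e * ε = (c : W.K) • ε := by
    conv_lhs => rw [← hl]
    rw [← mul_assoc, hd.top', smul_mul_assoc, hl]
  obtain ⟨a, ha⟩ := hspec _ (even_even he hee) heven
  obtain ⟨b, hb⟩ := hspec _ (odd_odd he hee) (by
    rw [map_sub, mul_sub, sub_mul, htop, htop', heven])
  have hsum : (a : W.K) + b ≠ 0 := by
    rw [← ha, ← hb, ← map_add, add_sub_cancel, Lfun_apply, htop, map_smul, smul_eq_mul]
    refine mul_ne_zero (by exact_mod_cast hc) fun h2 => h0 ?_
    exact eq_zero_of_trace_idem hidem h2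
  have hpev : PreservesParity W (evenPart W e) := by
    unfold PreservesParity
    rw [par_even he]
    apply gr_ext (W.isInternal X)
    intro i x hx
    rw [Module.End.mul_apply, par, scal_apply _ _ hx, map_smul, evenPart_apply hx]
    split_ifs with hi
    · rw [hi.neg_one_pow, one_smul]
    · rw [smul_zero]
  have hfin : evenPart W e ∈ KOp W X X 0 := by
    refine even_mem he hee hB h1 h2 hone (a := a) (b := b) ?_ ?_ ?_
    · rw [← ha, hBL _ hpev]
    · rw [← hb, hBL _ (pp_sub (pp_kop he) hpev)]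
    · intro h3
      apply hsum
      exact_mod_cast h3
  refine ⟨evenPart W e, ?_, fun j x hx => evenPart_apply hx⟩
  rw [algOps_eq]
  exact hfin

end Core

/-- The derivation as a linear map. -/
noncomputable def derLin (W : WeilCohomology.{u, v} ops) (X : 𝒱.Obj) (n : ℕ) :
    Module.End W.K (W.H X) →ₗ[W.K] Module.End W.K (W.H (pw X n)) where
  toFun F := derOp W F n
  map_add' F G := derOp_add F G n
  map_smul' c F := by rw [derOp_smul, RingHom.id_apply]

lemma ext_dd_comm {P D : Module.End W.K (W.H Y)} {e G : Module.End W.K (W.H X)}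
    (h : P * D = D * P) (h1 : e * G = G) (h2 : G * e = G) :
    extOp W P e * dd W D G = dd W D G * extOp W P e := by
  rw [dd, mul_add, add_mul]
  simp only [extOp_mul, mul_one, one_mul]
  rw [h, h1, h2]

lemma powOp_derOp_comm {e G : Module.End W.K (W.H X)} (h1 : e * G = G) (h2 : G * e = G) (n : ℕ) :
    powOp W e n * derOp W G n = derOp W G n * powOp W e n := by
  induction n using Nat.twoStepInduction with
  | zero => exact h1.trans h2.symm
  | one => exact h1.trans h2.symm
  | more n _ ih => exact ext_dd_comm (Y := pw X (n + 1)) ih h1 h2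

/-- The derivations on the powers. -/
lemma derLike_pw {e : Module.End W.K (W.H X)} (hee : e * e = e) (n : ℕ) :
    DerLike W (pw X (n + 1)) X (derLin W X (n + 1)) e (powOp W e (n + 1)) (n + 1) where
  comm G G' := derOp_comm G G' _
  hom _ hF := pp_derOp hF _
  compress F := powOp_compress hee F _
  spec _ hp := derOp_spec hp n
  top := powOp_derOp hee n
  top' := (powOp_derOp_comm hee hee (n + 1)).symm.trans (powOp_derOp hee n)
  contr _ hA := exists_contr n hA

/-- `F ↦ 1 ⊗ Δ F`. -/
noncomputable def relLin (W : WeilCohomology.{u, v} ops) (Y : 𝒱.Obj) {P X : 𝒱.Obj}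
    (Δ : Module.End W.K (W.H X) →ₗ[W.K] Module.End W.K (W.H P)) :
    Module.End W.K (W.H X) →ₗ[W.K] Module.End W.K (W.H (Y.prod P)) where
  toFun F := extOp W 1 (Δ F)
  map_add' F G := by rw [map_add, extOp_add_right]
  map_smul' c F := by rw [map_smul, extOp_smul_right, RingHom.id_apply]

lemma relLin_apply {P : 𝒱.Obj} (Δ : Module.End W.K (W.H X) →ₗ[W.K] Module.End W.K (W.H P))
    (F : Module.End W.K (W.H X)) : relLin W Y Δ F = extOp W 1 (Δ F) := rfl

/-- A spectator. -/
lemma DerLike.rel {P : 𝒱.Obj} {Δ : Module.End W.K (W.H X) →ₗ[W.K] Module.End W.K (W.H P)}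
    {e : Module.End W.K (W.H X)} {Q : Module.End W.K (W.H P)} {c : ℕ}
    (h : DerLike W P X Δ e Q c) (Y : 𝒱.Obj) :
    DerLike W (Y.prod P) X (relLin W Y Δ) e (extOp W 1 Q) c where
  comm G G' := by
    rw [relLin_apply, relLin_apply, relLin_apply, extOp_mul, extOp_mul, ← h.comm,
      extOp_sub_right, one_mul]
  hom F hF := pp_ext pp_one (h.hom F hF)
  compress F := by
    rw [relLin_apply, relLin_apply, extOp_mul, extOp_mul, extOp_mul, extOp_mul, h.compress]
  spec p hp := by
    obtain ⟨E, hE⟩ := h.spec p hp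
    refine ⟨fun i => extOp W 1 (E i), ?_, ?_, ?_, ?_⟩
    · intro i j hij
      rw [extOp_mul, hE.orth i j hij, extOp_zero_right]
    · intro i hi
      rw [hE.zero i hi, extOp_zero_right]
    · rw [← extOp_sum', hE.sum, extOp_one]
    · rw [relLin_apply]
      conv_lhs => rw [hE.eq, extOp_sum']
      refine Finset.sum_congr rfl fun i _ => ?_
      rw [extOp_smul_right]
  top := by rw [relLin_apply, extOp_mul, h.top, extOp_smul_right, one_mul]
  top' := by rw [relLin_apply, extOp_mul, h.top', extOp_smul_right, one_mul]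
  contr A hA := by
    obtain ⟨T0, hT0, h1⟩ := ptrace_even hA
    obtain ⟨T, hT, h2⟩ := h.contr T0 hT0
    refine ⟨T, hT, fun F hF => ?_⟩
    rw [← h2 F hF, relLin_apply, h1 _ (h.hom F hF)]

lemma powOp_idem {e : Module.End W.K (W.H X)} (hee : e * e = e) (n : ℕ) :
    powOp W e n * powOp W e n = powOp W e n := by rw [powOp_mul, hee]

/-- The sign conjecture for the invariant pieces of the powers. -/
theorem signOf_iff_invariant {e : Module.End W.K (W.H X)} (he : e ∈ KOp W X X 0) (hee : e * e = e)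
    {L : Set (Module.End W.K (W.H X))} (hL : L ⊆ parityOps W e) (hrig : Rigid W e L)
    {n : ℕ} (hn1 : 1 ≤ n) {ε : Module.End W.K (W.H (pw X n))}
    (hε : ε ∈ KOp W (pw X n) (pw X n) 0) (hn : IsInvariant W e L n ε) (h0 : ε ≠ 0) :
    SignOf W X e ↔ SignOf W (pw X n) ε := by
  obtain ⟨m, rfl⟩ : ∃ m, n = m + 1 := ⟨n - 1, by omega⟩
  refine ⟨fun h => ?_, fun h => (derLike_pw hee m).signOf (by omega) he hee hL hrig hε hn.idem
    hn.left hn.right hn.even hn.comm h0 h⟩
  rw [signOf_iff he] at h
  rw [signOf_iff hε]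
  have h1 := kop_mul (powOp_mem h (m + 1)) hε
  rwa [← powOp_mul, ← par_pw, mul_assoc, hn.left] at h1

/-- The sign conjecture for invariant pieces with a further factor. -/
theorem signOf_of_invariantIn {f : Module.End W.K (W.H Y)} {e : Module.End W.K (W.H X)}
    (he : e ∈ KOp W X X 0) (hee : e * e = e) {L : Set (Module.End W.K (W.H X))}
    (hL : L ⊆ parityOps W e) (hrig : Rigid W e L)
    {n : ℕ} (hn1 : 1 ≤ n) {ε : Module.End W.K (W.H (Y.prod (pw X n)))}
    (hε : ε ∈ KOp W (Y.prod (pw X n)) (Y.prod (pw X n)) 0) (hn : IsInvariantIn W f e L n ε)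
    (h0 : ε ≠ 0) (h : SignOf W (Y.prod (pw X n)) ε) : SignOf W X e := by
  obtain ⟨m, rfl⟩ : ∃ m, n = m + 1 := ⟨n - 1, by omega⟩
  have hl : extOp W 1 (powOp W e (m + 1)) * ε = ε := by
    conv_lhs => rw [← hn.left]
    rw [← mul_assoc, extOp_mul, one_mul, powOp_idem hee, hn.left]
  have hr : ε * extOp W 1 (powOp W e (m + 1)) = ε := by
    conv_lhs => rw [← hn.right]
    rw [mul_assoc, extOp_mul, mul_one, powOp_idem hee, hn.right]
  exact ((derLike_pw hee m).rel Y).signOf (by omega) he hee hL hrig hε hn.idem hl hr hn.even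
    hn.comm h0 h

/-- The converse. -/
theorem signOf_invariantIn {f : Module.End W.K (W.H Y)} {e : Module.End W.K (W.H X)}
    (hf : f ∈ KOp W Y Y 0) (he : e ∈ KOp W X X 0) {n : ℕ}
    {ε : Module.End W.K (W.H (Y.prod (pw X n)))}
    (hε : ε ∈ KOp W (Y.prod (pw X n)) (Y.prod (pw X n)) 0)
    (hl : extOp W f (powOp W e n) * ε = ε) (h : SignOf W Y f) (h' : SignOf W X e) :
    SignOf W (Y.prod (pw X n)) ε := by
  rw [signOf_iff hf] at h
  rw [signOf_iff he] at h'
  rw [signOf_iff hε]
  have h1 := kop_mul ((kop_class W).ext h (powOp_mem h' n)) hε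
  rwa [← powOp_mul, ← par_pw, ← extOp_mul, ← par_prod, mul_assoc, hl] at h1

end Pool.Agent.D0H31.SG
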