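import Pool.Agent.D0H31.SG.Defs
import Pool.Agent.D0H31.SG.Lin

/-!
# Operators on the powers
-/

set_option autoImplicit false

open CategoryTheory AlgebraicGeometry Finset TensorProduct Module

universe u v

namespace Pool.Agent.D0H31.SG

open Pool.Agent.H914 VarClass Obj WeilCohomology Pool.Agent.N190.CB Pool.Agent.N103.OC
  Pool.Agent.TH133.PW Pool.Agent.H447 Pool.Agent.N536.SG Pool.Agent.N536.HK

variable {k : Type u} [Field k] {𝒱 : VarClass k} {ops : CycleOps 𝒱}
  {W : WeilCohomology.{u, v} ops} {X Y Z : 𝒱.Obj}

lemma algOps_eq : algOps W Y = KOp W Y Y 0 := span_cycleOperators0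

lemma extOp_sub_left (F F' : Module.End W.K (W.H Y)) (G : Module.End W.K (W.H X)) :
    extOp W (F - F') G = extOp W F G - extOp W F' G := by
  rw [eq_sub_iff_add_eq, ← extOp_add_left, sub_add_cancel]

lemma extOp_sub_right (F : Module.End W.K (W.H Y)) (G G' : Module.End W.K (W.H X)) :
    extOp W F (G - G') = extOp W F G - extOp W F G' := by
  rw [eq_sub_iff_add_eq, ← extOp_add_right, sub_add_cancel]

/-- `D ⊗ 1 + 1 ⊗ G`. -/
noncomputable def dd (W : WeilCohomology.{u, v} ops) (D : Module.End W.K (W.H Y))
    (G : Module.End W.K (W.H X)) : Module.End W.K (W.H (Y.prod X)) :=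
  extOp W D 1 + extOp W 1 G

lemma derOp_succ (G : Module.End W.K (W.H X)) (n : ℕ) :
    derOp W G (n + 2) = dd W (Y := pw X (n + 1)) (derOp W G (n + 1)) G := rfl

lemma powOp_succ (e : Module.End W.K (W.H X)) (n : ℕ) :
    powOp W e (n + 2) = extOp W (Y := pw X (n + 1)) (powOp W e (n + 1)) e := rfl

lemma dd_add (D D' : Module.End W.K (W.H Y)) (G G' : Module.End W.K (W.H X)) :
    dd W (D + D') (G + G') = dd W D G + dd W D' G' := by
  rw [dd, dd, dd, extOp_add_left, extOp_add_right]
  abel

lemma dd_smul (c : W.K) (D : Module.End W.K (W.H Y)) (G : Module.End W.K (W.H X)) :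
    dd W (c • D) (c • G) = c • dd W D G := by
  rw [dd, dd, extOp_smul_left, extOp_smul_right, smul_add]

lemma dd_sub (D D' : Module.End W.K (W.H Y)) (G G' : Module.End W.K (W.H X)) :
    dd W (D - D') (G - G') = dd W D G - dd W D' G' := by
  rw [eq_sub_iff_add_eq, ← dd_add, sub_add_cancel, sub_add_cancel]

lemma dd_comm (D D' : Module.End W.K (W.H Y)) (G G' : Module.End W.K (W.H X)) :
    dd W D G * dd W D' G' - dd W D' G' * dd W D G =
      dd W (D * D' - D' * D) (G * G' - G' * G) := by
  rw [dd, dd, dd, extOp_sub_left, extOp_sub_right]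
  simp only [mul_add, add_mul, extOp_mul, mul_one, one_mul]
  abel

lemma derOp_add (G G' : Module.End W.K (W.H X)) (n : ℕ) :
    derOp W (G + G') n = derOp W G n + derOp W G' n := by
  induction n using Nat.twoStepInduction with
  | zero => rfl
  | one => rfl
  | more n _ ih =>
    have h := dd_add (Y := pw X (n + 1)) (derOp W G (n + 1)) (derOp W G' (n + 1)) G G'
    rw [← ih] at h
    exact h

lemma derOp_smul (c : W.K) (G : Module.End W.K (W.H X)) (n : ℕ) :
    derOp W (c • G) n = c • derOp W G n := by
  induction n using Nat.twoStepInduction with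
  | zero => rfl
  | one => rfl
  | more n _ ih =>
    have h := dd_smul (Y := pw X (n + 1)) c (derOp W G (n + 1)) G
    rw [← ih] at h
    exact h

lemma derOp_sub (G G' : Module.End W.K (W.H X)) (n : ℕ) :
    derOp W (G - G') n = derOp W G n - derOp W G' n := by
  rw [eq_sub_iff_add_eq, ← derOp_add, sub_add_cancel]

/-- The derivations form a representation. -/
lemma derOp_comm (G G' : Module.End W.K (W.H X)) (n : ℕ) :
    derOp W G n * derOp W G' n - derOp W G' n * derOp W G n = derOp W (G * G' - G' * G) n := by
  induction n using Nat.twoStepInduction with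
  | zero => rfl
  | one => rfl
  | more n _ ih =>
    have h := dd_comm (Y := pw X (n + 1)) (derOp W G (n + 1)) (derOp W G' (n + 1)) G G'
    rw [ih] at h
    exact h

lemma powOp_mul (e f : Module.End W.K (W.H X)) (n : ℕ) :
    powOp W e n * powOp W f n = powOp W (e * f) n := by
  induction n using Nat.twoStepInduction with
  | zero => rfl
  | one => rfl
  | more n _ ih =>
    have h := extOp_mul (Y := pw X (n + 1)) (powOp W e (n + 1)) (powOp W f (n + 1)) e f
    rw [ih] at h
    exact h

lemma powOp_one (n : ℕ) : powOp W (1 : Module.End W.K (W.H X)) n = 1 := by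
  induction n using Nat.twoStepInduction with
  | zero => rfl
  | one => rfl
  | more n _ ih =>
    have h := extOp_one (W := W) (Y := pw X (n + 1)) (Z := X)
    rw [← ih] at h
    exact h

lemma powOp_mem {e : Module.End W.K (W.H X)} (he : e ∈ KOp W X X 0) (n : ℕ) :
    powOp W e n ∈ KOp W (pw X n) (pw X n) 0 := by
  induction n using Nat.twoStepInduction with
  | zero => exact he
  | one => exact he
  | more n _ ih => exact (kop_class W).ext (Y := pw X (n + 1)) ih he

lemma par_pw (n : ℕ) : par (W.isInternal (pw X n)) = powOp W (par (W.isInternal X)) n := by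
  induction n using Nat.twoStepInduction with
  | zero => rfl
  | one => rfl
  | more n _ ih =>
    have h := par_prod (W := W) (X := pw X (n + 1)) (Z := X)
    rw [ih] at h
    exact h

lemma dd_pow {D P : Module.End W.K (W.H Y)} {e : Module.End W.K (W.H X)} (he : e * e = e) {c : W.K}
    (h : P * D = c • P) : extOp W P e * dd W D e = (c + 1) • extOp W P e := by
  rw [dd, mul_add, extOp_mul, extOp_mul, h, he, mul_one, mul_one, extOp_smul_left, add_smul,
    one_smul]

/-- `n` times the projector. -/
lemma powOp_derOp {e : Module.End W.K (W.H X)} (he : e * e = e) (n : ℕ) :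
    powOp W e (n + 1) * derOp W e (n + 1) = ((n + 1 : ℕ) : W.K) • powOp W e (n + 1) := by
  induction n with
  | zero =>
    have h : e * e = ((0 + 1 : ℕ) : W.K) • e := by rw [he]; simp
    exact h
  | succ n ih =>
    have h := dd_pow (Y := pw X (n + 1)) he ih
    have e1 : ((n + 1 : ℕ) : W.K) + 1 = ((n + 1 + 1 : ℕ) : W.K) := by push_cast; ring
    rw [e1] at h
    exact h

lemma dd_compress {e F : Module.End W.K (W.H X)} {P D D' : Module.End W.K (W.H Y)}
    (h0 : e * (e * F * e) * e = e * F * e) (h : P * D' * P = P * D * P) :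
    extOp W P e * dd W D' (e * F * e) * extOp W P e = extOp W P e * dd W D F * extOp W P e := by
  rw [dd, dd, mul_add, mul_add, add_mul, add_mul]
  simp only [extOp_mul, mul_one]
  rw [h, h0]

/-- Compression. -/
lemma powOp_compress {e : Module.End W.K (W.H X)} (he : e * e = e) (F : Module.End W.K (W.H X))
    (n : ℕ) : powOp W e n * derOp W (e * F * e) n * powOp W e n =
      powOp W e n * derOp W F n * powOp W e n := by
  have h0 : e * (e * F * e) * e = e * F * e := by
    have : e * (e * F * e) * e = (e * e) * F * (e * e) := by noncomm_ring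
    rw [this, he]
  induction n using Nat.twoStepInduction with
  | zero => exact h0
  | one => exact h0
  | more n _ ih => exact dd_compress (Y := pw X (n + 1)) h0 ih

lemma dd_spec {p : Module.End W.K (W.H X)} (hp : p * p = p) {D : Module.End W.K (W.H Y)} {n : ℕ}
    {E : ℕ → Module.End W.K (W.H Y)} (hE : Spec n D E) : ∃ E', Spec (n + 1) (dd W D p) E' := by
  have h1 : p * (1 - p) = 0 := by rw [mul_sub, hp, mul_one, sub_self]
  have h2 : (1 - p) * p = 0 := by rw [sub_mul, hp, one_mul, sub_self]
  let E' : ℕ → Module.End W.K (W.H (Y.prod X)) := fun i =>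
    match i with
    | 0 => extOp W (E 0) (1 - p)
    | i + 1 => extOp W (E (i + 1)) (1 - p) + extOp W (E i) p
  have e0 : E' 0 = extOp W (E 0) (1 - p) := rfl
  have es : ∀ i, E' (i + 1) = extOp W (E (i + 1)) (1 - p) + extOp W (E i) p := fun _ => rfl
  refine ⟨E', ?_, ?_, ?_, ?_⟩
  · intro i j hij
    cases i with
    | zero =>
      cases j with
      | zero => exact absurd rfl hij
      | succ j =>
        rw [e0, es, mul_add, extOp_mul, extOp_mul, hE.orth 0 (j + 1) (by omega), h2,
          extOp_zero_left, extOp_zero_right, add_zero]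
    | succ i =>
      cases j with
      | zero =>
        rw [e0, es, add_mul, extOp_mul, extOp_mul, hE.orth (i + 1) 0 (by omega), h1,
          extOp_zero_left, extOp_zero_right, add_zero]
      | succ j =>
        have hij' : i ≠ j := by omega
        rw [es, es, mul_add, add_mul, add_mul]
        simp only [extOp_mul]
        rw [hE.orth (i + 1) (j + 1) (by omega), hE.orth i j hij', h1, h2]
        simp only [extOp_zero_left, extOp_zero_right, add_zero]
  · intro i hi
    obtain ⟨i, rfl⟩ : ∃ j, i = j + 1 := ⟨i - 1, by omega⟩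
    rw [es, hE.zero (i + 1) (by omega), hE.zero i (by omega), extOp_zero_left, extOp_zero_left,
      add_zero]
  · have h5 : ∑ i ∈ range (n + 1), E (i + 1) + E 0 = 1 := by
      rw [← sum_range_succ' E, sum_range_succ, hE.sum, hE.zero (n + 1) (by omega), add_zero]
    rw [sum_range_succ', e0]
    simp only [es]
    rw [sum_add_distrib, ← extOp_sum, ← extOp_sum, hE.sum, add_right_comm, ← extOp_add_left, h5,
      ← extOp_add_right, sub_add_cancel, extOp_one]
  · have e1 : (∑ i ∈ range (n + 1), ((i + 1 : ℕ) : W.K) •
        (extOp W (E (i + 1)) (1 - p) + extOp W (E i) p)) =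
        extOp W (∑ i ∈ range (n + 1), ((i + 1 : ℕ) : W.K) • E (i + 1)) (1 - p) +
        extOp W (∑ i ∈ range (n + 1), ((i + 1 : ℕ) : W.K) • E i) p := by
      rw [extOp_sum, extOp_sum, ← sum_add_distrib]
      refine sum_congr rfl fun i _ => ?_
      rw [smul_add, extOp_smul_left, extOp_smul_left]
    have e2 : ∑ i ∈ range (n + 1), ((i + 1 : ℕ) : W.K) • E (i + 1) = D := by
      have h6 := sum_range_succ' (fun i => ((i : ℕ) : W.K) • E i) (n + 1)
      rw [sum_range_succ, hE.zero (n + 1) (by omega), smul_zero, add_zero, ← hE.eq] at h6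
      rw [h6]
      simp
    have e3 : ∑ i ∈ range (n + 1), ((i + 1 : ℕ) : W.K) • E i = D + 1 := by
      conv_rhs => rw [hE.eq, ← hE.sum, ← sum_add_distrib]
      refine sum_congr rfl fun i _ => ?_
      rw [Nat.cast_add, Nat.cast_one, add_smul, one_smul]
    rw [sum_range_succ', e0]
    simp only [es]
    rw [e1, e2, e3, Nat.cast_zero, zero_smul, add_zero, extOp_add_left, ← add_assoc,
      ← extOp_add_right, sub_add_cancel, dd]

/-- The spectral decomposition of the derivation given by an idempotent. -/
lemma derOp_spec {p : Module.End W.K (W.H X)} (hp : p * p = p) (n : ℕ) :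
    ∃ E, Spec (n + 1) (derOp W p (n + 1)) E := by
  have h1 : p * (1 - p) = 0 := by rw [mul_sub, hp, mul_one, sub_self]
  have h2 : (1 - p) * p = 0 := by rw [sub_mul, hp, one_mul, sub_self]
  induction n with
  | zero =>
    have key : ∃ E, Spec (0 + 1) p E := by
      refine ⟨fun i => if i = 0 then 1 - p else if i = 1 then p else 0, ?_, ?_, ?_, ?_⟩
      · intro i j hij
        by_cases hi : i = 0
        · by_cases hj : j = 1
          · simp [hi, hj, h2]
          · have hj0 : j ≠ 0 := fun h => hij (hi.trans h.symm)
            simp [hj0, hj]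
        · by_cases hi1 : i = 1
          · by_cases hj : j = 0
            · simp [hi1, hj, h1]
            · have hj1 : j ≠ 1 := fun h => hij (hi1.trans h.symm)
              simp [hj, hj1]
          · simp [hi, hi1]
      · intro i hi
        have h4 : i ≠ 0 := by omega
        have h5 : i ≠ 1 := by omega
        simp [h4, h5]
      · rw [sum_range_succ, sum_range_succ]
        simp
      · rw [sum_range_succ, sum_range_succ]
        simp
    exact key
  | succ n ih =>
    obtain ⟨E, hE⟩ := ih
    exact dd_spec (Y := pw X (n + 1)) hp hE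

end Pool.Agent.D0H31.SG
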