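import Pool.Agent.D0H31.SG.Core

/-!
# Operators with one eigenvalue on the even and one eigenvalue on the odd part
-/

set_option autoImplicit false

open CategoryTheory AlgebraicGeometry Finset TensorProduct Module

universe u v

namespace Pool.Agent.D0H31.SG

open Pool.Agent.H914 VarClass Obj WeilCohomology Pool.Agent.N190.CB Pool.Agent.N103.OC
  Pool.Agent.TH133.PW Pool.Agent.H447 Pool.Agent.N536.SG Pool.Agent.N536.HK

variable {k : Type u} [Field k] {𝒱 : VarClass k} {ops : CycleOps 𝒱}
  {W : WeilCohomology.{u, v} ops} {X Y Z : 𝒱.Obj}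

section Lin

variable {K V : Type*} [Field K] [CharZero K] [AddCommGroup V] [Module K V]
  [FiniteDimensional K V]

lemma trace_of_nilpotent {p B : Module.End K V} {c : K} (hp : p * p = p)
    (h : IsNilpotent ((B - c • (1 : Module.End K V)) * p)) :
    LinearMap.trace K V (B * p) = c * finrank K (LinearMap.range p) := by
  have h1 : LinearMap.trace K V ((B - c • (1 : Module.End K V)) * p) = 0 :=
    (LinearMap.isNilpotent_trace_of_isNilpotent h).eq_zero
  rw [sub_mul, map_sub, sub_eq_zero, smul_mul_assoc, one_mul, map_smul,
    Pool.Agent.N536.HK.trace_idem hp, smul_eq_mul] at h1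
  exact h1

end Lin

lemma kop_pow {B : Module.End W.K (W.H X)} (hB : B ∈ KOp W X X 0) (n : ℕ) :
    B ^ n ∈ KOp W X X 0 := by
  induction n with
  | zero => exact KOp.id X
  | succ n ih => rw [pow_succ]; exact kop_mul ih hB

lemma kop_aeval {B : Module.End W.K (W.H X)} (hB : B ∈ KOp W X X 0) (q : Polynomial W.K) :
    Polynomial.aeval B q ∈ KOp W X X 0 := by
  induction q using Polynomial.induction_on' with
  | add p q hp hq => rw [map_add]; exact Submodule.add_mem _ hp hq
  | monomial n a =>
    rw [Polynomial.aeval_monomial, ← Algebra.smul_def]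
    exact Submodule.smul_mem _ _ (kop_pow hB n)

section Parts

variable {e B : Module.End W.K (W.H X)}

lemma evenPart_apply {i : ℕ} {x : W.H X} (hx : x ∈ W.gr X i) :
    evenPart W e x = if Even i then e x else 0 := by
  rw [evenPart, Module.End.mul_apply, evenProj, scal_apply _ _ hx]
  split_ifs
  · rw [one_smul]
  · rw [zero_smul, map_zero]

lemma oddPart_apply {i : ℕ} {x : W.H X} (hx : x ∈ W.gr X i) :
    (e - evenPart W e) x = if Even i then 0 else e x := by
  rw [LinearMap.sub_apply, evenPart_apply hx]
  split_ifs
  · rw [sub_self]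
  · rw [sub_zero]

lemma e_even (hee : e * e = e) : e * evenPart W e = evenPart W e := by
  rw [evenPart, ← mul_assoc, hee]

lemma even_e (he : e ∈ KOp W X X 0) (hee : e * e = e) : evenPart W e * e = evenPart W e := by
  apply gr_ext (W.isInternal X)
  intro i x hx
  rw [Module.End.mul_apply, evenPart_apply (kop_gr he i hx), evenPart_apply hx,
    ← Module.End.mul_apply, hee]

lemma even_comm_B (hB : B ∈ KOp W X X 0) (h1 : e * B = B)
    (h2 : B * e = B) : B * evenPart W e = evenPart W e * B := by
  apply gr_ext (W.isInternal X)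
  intro i x hx
  rw [Module.End.mul_apply, Module.End.mul_apply, evenPart_apply hx,
    evenPart_apply (kop_gr hB i hx)]
  split_ifs
  · rw [← Module.End.mul_apply, ← Module.End.mul_apply, h1, h2]
  · rw [map_zero]

lemma even_even (he : e ∈ KOp W X X 0) (hee : e * e = e) :
    evenPart W e * evenPart W e = evenPart W e := by
  apply gr_ext (W.isInternal X)
  intro i x hx
  rw [Module.End.mul_apply, evenPart_apply hx]
  split_ifs with hi
  · rw [evenPart_apply (kop_gr he i hx), if_pos hi, ← Module.End.mul_apply, hee]
  · rw [map_zero]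

lemma odd_odd (he : e ∈ KOp W X X 0) (hee : e * e = e) :
    (e - evenPart W e) * (e - evenPart W e) = e - evenPart W e := by
  rw [sub_mul, mul_sub, mul_sub, hee, e_even hee, even_e he hee, even_even he hee, sub_self,
    sub_zero]

lemma par_even (he : e ∈ KOp W X X 0) : par (W.isInternal X) * evenPart W e = evenPart W e := by
  apply gr_ext (W.isInternal X)
  intro i x hx
  rw [Module.End.mul_apply, evenPart_apply hx]
  split_ifs with hi
  · rw [par, scal_apply _ _ (kop_gr he i hx), hi.neg_one_pow, one_smul]
  · rw [map_zero]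

lemma par_odd (he : e ∈ KOp W X X 0) :
    par (W.isInternal X) * (e - evenPart W e) = (-1 : W.K) • (e - evenPart W e) := by
  apply gr_ext (W.isInternal X)
  intro i x hx
  rw [Module.End.mul_apply, oddPart_apply hx, LinearMap.smul_apply, oddPart_apply hx]
  split_ifs with hi
  · rw [map_zero, smul_zero]
  · rw [par, scal_apply _ _ (kop_gr he i hx), (Nat.not_even_iff_odd.1 hi).neg_one_pow]

/-- **The separation of the even from the odd part.** -/
lemma even_mem (he : e ∈ KOp W X X 0) (hee : e * e = e) (hB : B ∈ KOp W X X 0)
    (h1 : e * B = B) (h2 : B * e = B) (hone : OneEigenvalue W e B) {a b : ℕ}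
    (ha : str W X (B * evenPart W e) = a) (hb : str W X (B * (e - evenPart W e)) = b)
    (hab : a + b ≠ 0) : evenPart W e ∈ KOp W X X 0 := by
  obtain ⟨c0, c1, N, hN⟩ := hone
  have hex : ∀ x, e (e x) = e x := fun x => by rw [← Module.End.mul_apply, hee]
  have hBp : par (W.isInternal X) * B = B * par (W.isInternal X) := par_comm hB
  have hc0 : B * evenPart W e = evenPart W e * B := even_comm_B hB h1 h2
  have hc1 : B * (e - evenPart W e) = (e - evenPart W e) * B := by
    rw [mul_sub, sub_mul, h1, h2, hc0]
  have hnil : ∀ (c : W.K) (p : Module.End W.K (W.H X)), p * p = p → B * p = p * B →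
      (∀ i, ∀ x ∈ W.gr X i, ((B - c • (1 : Module.End W.K (W.H X))) ^ N) (p x) = 0) →
      IsNilpotent ((B - c • (1 : Module.End W.K (W.H X))) * p) := by
    intro c p hp hBp' hz
    refine ⟨N + 1, ?_⟩
    have hcomm : Commute (B - c • (1 : Module.End W.K (W.H X))) p := by
      change (B - c • (1 : Module.End W.K (W.H X))) * p = p * (B - c • (1 : Module.End W.K (W.H X)))
      rw [sub_mul, mul_sub, hBp', smul_mul_assoc, mul_smul_comm, one_mul, mul_one]
    rw [hcomm.mul_pow, IsIdempotentElem.pow_succ_eq N hp, pow_succ']
    apply gr_ext (W.isInternal X)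
    intro i x hx
    rw [Module.End.mul_apply, Module.End.mul_apply, hz i x hx, map_zero, LinearMap.zero_apply]
  have n0 : IsNilpotent ((B - c0 • (1 : Module.End W.K (W.H X))) * evenPart W e) := by
    refine hnil c0 _ (even_even he hee) hc0 fun i x hx => ?_
    rw [evenPart_apply hx]
    split_ifs with hi
    · have := hN i (e x) (kop_gr he i hx) (hex x)
      rwa [if_pos hi] at this
    · rw [map_zero]
  have n1 : IsNilpotent ((B - c1 • (1 : Module.End W.K (W.H X))) * (e - evenPart W e)) := by
    refine hnil c1 _ (odd_odd he hee) hc1 fun i x hx => ?_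
    rw [oddPart_apply hx]
    split_ifs with hi
    · rw [map_zero]
    · have := hN i (e x) (kop_gr he i hx) (hex x)
      rwa [if_neg hi] at this
  rw [str_apply, ← mul_assoc, hBp, mul_assoc, par_even he,
    trace_of_nilpotent (even_even he hee) n0] at ha
  rw [str_apply, ← mul_assoc, hBp, mul_assoc, par_odd he, mul_smul_comm, map_smul,
    trace_of_nilpotent (odd_odd he hee) n1, smul_eq_mul] at hb
  set r0 := finrank W.K (LinearMap.range (evenPart W e)) with hr0
  set r1 := finrank W.K (LinearMap.range (e - evenPart W e)) with hr1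
  by_cases hc : c0 = c1
  · -- both ranks cannot be nonzero
    have h5 : (a : W.K) * r1 + b * r0 = 0 := by
      rw [← ha, ← hb, hc]
      ring
    have h6 : a * r1 + b * r0 = 0 := by exact_mod_cast h5
    have h8 : a * r1 = 0 := by omega
    have h9 : b * r0 = 0 := by omega
    rcases Nat.mul_eq_zero.1 h8 with h10 | h10
    · rcases Nat.mul_eq_zero.1 h9 with h11 | h11
      · omega
      · have h12 : evenPart W e = 0 := LinearMap.range_eq_bot.1 (Submodule.finrank_eq_zero.1 h11)
        rw [h12]
        exact Submodule.zero_mem _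
    · have h12 : e - evenPart W e = 0 :=
        LinearMap.range_eq_bot.1 (Submodule.finrank_eq_zero.1 h10)
      rw [sub_eq_zero] at h12
      rw [← h12]
      exact he
  · have hcop : IsCoprime ((Polynomial.X - Polynomial.C c0) ^ N : Polynomial W.K)
        ((Polynomial.X - Polynomial.C c1) ^ N) :=
      (Polynomial.isCoprime_X_sub_C_of_isUnit_sub (sub_ne_zero.2 hc).isUnit).pow
    obtain ⟨s, t, hst⟩ := hcop
    have hev : ∀ c : W.K, Polynomial.aeval B ((Polynomial.X - Polynomial.C c) ^ N) =
        (B - c • (1 : Module.End W.K (W.H X))) ^ N := by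
      intro c
      rw [map_pow, map_sub, Polynomial.aeval_X, Polynomial.aeval_C, Algebra.algebraMap_eq_smul_one]
    have h3 : evenPart W e =
        Polynomial.aeval B (t * (Polynomial.X - Polynomial.C c1) ^ N) * e := by
      apply gr_ext (W.isInternal X)
      intro i x hx
      have h4 := hN i (e x) (kop_gr he i hx) (hex x)
      rw [evenPart_apply hx, Module.End.mul_apply]
      split_ifs with hi
      · rw [if_pos hi] at h4
        have h5 := congrArg (fun q => Polynomial.aeval B q (e x)) hst
        simp only [map_add, map_one, LinearMap.add_apply, Module.End.one_apply] at h5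
        rw [map_mul (Polynomial.aeval B) s, hev c0, Module.End.mul_apply, h4, map_zero,
          zero_add] at h5
        exact h5.symm
      · rw [if_neg hi] at h4
        rw [map_mul, hev c1, Module.End.mul_apply, h4, map_zero]
    rw [h3]
    exact kop_mul (kop_aeval hB _) he

end Parts

/-- The operators which preserve the parity are a rigid set. -/
lemma rigid_parityOps {e : Module.End W.K (W.H X)} (he : e ∈ KOp W X X 0) (hee : e * e = e) :
    Rigid W e (parityOps W e) := by
  intro B hB h1 h2 hcomm
  rw [algOps_eq] at hB
  have hex : ∀ x, e (e x) = e x := fun x => by rw [← Module.End.mul_apply, hee]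
  have key : ∀ s : ℕ, ∃ c : W.K, ∀ m, Even (m + s) → ∀ x ∈ W.gr X m, e x = x → B x = c • x := by
    intro s
    by_cases h0 : ∃ l, Even (l + s) ∧ ∃ y ∈ W.gr X l, e y = y ∧ y ≠ 0
    · obtain ⟨l, hl, y, hy, hey, hy0⟩ := h0
      obtain ⟨f, hf⟩ : ∃ f : Dual W.K (W.H X), f y ≠ 0 := by
        by_contra hcon
        push Not at hcon
        exact hy0 ((Module.forall_dual_apply_eq_zero_iff W.K _).1 hcon)
      refine ⟨(f y)⁻¹ * f (B y), fun m hm x hx hex' => ?_⟩
      have hml : Even (m + l) := by
        rw [Nat.even_add] at hm hl ⊢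
        tauto
      set G : Module.End W.K (W.H X) := (f ∘ₗ proj (W.isInternal X) l ∘ₗ e).smulRight x with hG
      have hGm : G ∈ parityOps W e := by
        refine ⟨?_, ?_, ?_⟩
        · apply gr_ext (W.isInternal X)
          intro r z hz
          rw [Module.End.mul_apply, Module.End.mul_apply, par, scal_apply _ _ hz, hG]
          simp only [LinearMap.smulRight_apply, LinearMap.comp_apply, map_smul]
          rw [scal_apply _ _ hx]
          by_cases hr : r = l
          · subst hr
            have e1 : (-1 : W.K) ^ r = (-1 : W.K) ^ m := by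
              have e2 : (-1 : W.K) ^ m * (-1 : W.K) ^ r = 1 := by rw [← pow_add, hml.neg_one_pow]
              have e3 : (-1 : W.K) ^ m * (-1 : W.K) ^ m = 1 := by
                rw [← pow_add, ← two_mul, pow_mul]; simp
              calc (-1 : W.K) ^ r = ((-1 : W.K) ^ m * (-1 : W.K) ^ m) * (-1 : W.K) ^ r := by
                    rw [e3, one_mul]
                _ = (-1 : W.K) ^ m * ((-1 : W.K) ^ m * (-1 : W.K) ^ r) := by ring
                _ = (-1 : W.K) ^ m := by rw [e2, mul_one]
            rw [e1, smul_comm]
          · rw [proj_ne _ (kop_gr he r hz) hr]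
            simp
        · apply LinearMap.ext
          intro z
          rw [Module.End.mul_apply, hG, LinearMap.smulRight_apply, map_smul, hex']
        · apply LinearMap.ext
          intro z
          rw [Module.End.mul_apply, hG]
          simp only [LinearMap.smulRight_apply, LinearMap.comp_apply]
          rw [hex]
      have h3 := congrArg (fun F : Module.End W.K (W.H X) => F y) (hcomm G hGm)
      simp only [Module.End.mul_apply] at h3
      rw [hG] at h3
      simp only [LinearMap.smulRight_apply, LinearMap.comp_apply, map_smul] at h3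
      have h4 : e (B y) = B y := by rw [← Module.End.mul_apply, h1]
      rw [h4, hey, proj_same _ (kop_gr hB l hy), proj_same _ hy] at h3
      rw [mul_smul, h3, smul_smul, inv_mul_cancel₀ hf, one_smul]
    · push Not at h0
      refine ⟨0, fun m hm x hx hex' => ?_⟩
      rw [h0 m hm x hx hex', map_zero, smul_zero]
  obtain ⟨c0, hc0⟩ := key 0
  obtain ⟨c1, hc1⟩ := key 1
  refine ⟨c0, c1, 1, fun j x hx hx' => ?_⟩
  rw [pow_one, LinearMap.sub_apply, LinearMap.smul_apply, Module.End.one_apply]
  split_ifs with hj
  · rw [hc0 j (by simpa using hj) x hx hx', sub_self]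
  · rw [hc1 j (Nat.not_even_iff_odd.1 hj).add_one x hx hx', sub_self]

end Pool.Agent.D0H31.SG
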