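import Pool.Agent.H447R3.SpDefs
import Pool.Agent.TH133.PW.Defs
import Pool.Agent.N103.OC.Defs

/-!
# Invariant direct summands of the powers of a motive: the notions of the statement
-/

open CategoryTheory AlgebraicGeometry

set_option autoImplicit false

universe u v

namespace Pool.Agent.D0H31.SG.St

section Alg

variable {K : Type*} {V : Type*} {U : Type*} {α : Type*} [Field K] [AddCommGroup V] [Module K V]
  [AddCommGroup U] [Module K U]

/-- The linear combinations of the operators in `S`. -/
def Comb (S : Set (V →ₗ[K] V)) : Set (Module.End K V) := {f | f ∈ Submodule.span K S}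

/-- `e` is an idempotent operator and belongs to `A`. -/
def IsIdem (A : Set (Module.End K V)) (e : Module.End K V) : Prop := e ∈ A ∧ e * e = e

/-- `P` is `f` on the `gr j` with `j` even and zero on the `gr j` with `j` odd. -/
def IsEvenPart (gr : ℕ → Submodule K V) (f P : Module.End K V) : Prop :=
  ∀ j, ∀ x ∈ gr j, P x = if Even j then f x else 0

/-- The operator which is `f` on the even and zero on the odd part of `V` belongs to `A`. -/
def EvenPartIn (gr : ℕ → Submodule K V) (A : Set (Module.End K V)) (f : Module.End K V) : Prop :=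
  ∃ P ∈ A, IsEvenPart gr f P

/-- The operators on the image of `e` which map `gr j` to the sum of the `gr i` with `i + j` even. -/
def ParityOps (gr : ℕ → Submodule K V) (e : Module.End K V) : Set (Module.End K V) :=
  {G | (∀ j, ∀ x ∈ gr j, G x ∈ ⨆ (i : ℕ) (_ : Even (i + j)), gr i) ∧ e * G = G ∧ G * e = G}

/-- `B` has only one eigenvalue on the even part and only one eigenvalue on the odd part of the image
of `e`. -/
def OneEigenvalueOn (gr : ℕ → Submodule K V) (e B : Module.End K V) : Prop :=
  ∃ (a b : K) (N : ℕ), ∀ j, ∀ x ∈ gr j, e x = x →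
    ((B - (if Even j then a else b) • (1 : Module.End K V)) ^ N) x = 0

/-- Each operator in `A` on the image of `e` which commutes with the operators in `L` has only one
eigenvalue on the even part and only one eigenvalue on the odd part of the image of `e`. -/
def RigidFor (gr : ℕ → Submodule K V) (A : Set (Module.End K V)) (e : Module.End K V)
    (L : Set (Module.End K V)) : Prop :=
  ∀ B ∈ A, e * B = B → B * e = B → (∀ G ∈ L, G * B = B * G) → OneEigenvalueOn gr e B

/-- Each operator in `A` on the image of `e` is the sum of a scalar and a nilpotent operator. -/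
def ScalarNil (A : Set (Module.End K V)) (e : Module.End K V) : Prop :=
  ∀ B ∈ A, e * B = B → B * e = B → ∃ c : K, IsNilpotent (B - c • e)

/-- The image of `e` is contained in the even part or in the odd part of `V`. -/
def PureOn (gr : ℕ → Submodule K V) (e : Module.End K V) : Prop :=
  (∀ j, Odd j → ∀ x ∈ gr j, e x = 0) ∨ (∀ j, Even j → ∀ x ∈ gr j, e x = 0)

/-- The image of `e` is contained in `gr i + gr j`. -/
def InDegreesOn (gr : ℕ → Submodule K V) (e : Module.End K V) (i j : ℕ) : Prop :=
  ∀ l, l ≠ i → l ≠ j → ∀ x ∈ gr l, e x = 0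

/-- For `t y x = y ⊗ x₀ ⊗ x₁ ⊗ ...` the operator `P` is `f ⊗ e ⊗ e ⊗ ...`. -/
def IsTensorPow (t : α → (ℕ → V) → U) (f : α → α) (e : Module.End K V) (P : Module.End K U) : Prop :=
  ∀ y x, P (t y x) = t (f y) fun i => e (x i)

/-- For `t y x = y ⊗ x₀ ⊗ ... ⊗ xₙ₋₁` the operator `D` is the derivation
`1 ⊗ G ⊗ 1 ⊗ ... + 1 ⊗ 1 ⊗ G ⊗ ... + ...` given by `G`. -/
def IsDer (t : α → (ℕ → V) → U) (n : ℕ) (G : Module.End K V) (D : Module.End K U) : Prop :=
  ∀ y x, D (t y x) = ∑ i ∈ Finset.range n, t y (Function.update x i (G (x i)))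

/-- `ε` commutes with the derivation given by `G`. -/
def CommDer (t : α → (ℕ → V) → U) (n : ℕ) (ε : Module.End K U) (G : Module.End K V) : Prop :=
  ∃ D, IsDer t n G D ∧ ε * D = D * ε

/-- `ε` is a nonzero idempotent operator in `A`, the projector onto a direct summand of the image of
`f ⊗ e ⊗ e ⊗ ...`. -/
structure PieceOf (A : Set (Module.End K U)) (t : α → (ℕ → V) → U) (f : α → α)
    (e : Module.End K V) (ε : Module.End K U) : Prop where
  idem : IsIdem A ε
  ne : ε ≠ 0
  le : ∃ P, IsTensorPow t f e P ∧ P * ε = ε ∧ ε * P = ε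

/-- `ε` commutes with the derivations given by the operators in `L` and by the even part of `e`. -/
structure InvariantFor (gr : ℕ → Submodule K V) (t : α → (ℕ → V) → U) (e : Module.End K V)
    (L : Set (Module.End K V)) (n : ℕ) (ε : Module.End K U) : Prop where
  even : ∃ G, IsEvenPart gr e G ∧ CommDer t n ε G
  comm : ∀ G ∈ L, CommDer t n ε G

end Alg

open Pool.Agent.H914 VarClass Obj WeilCohomology Pool.Agent.N103.OC Pool.Agent.TH133.PW

variable {k : Type u} [Field k] {𝒱 : VarClass k} {ops : CycleOps 𝒱}

/-- The operators on the cohomology of `X`. -/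
abbrev Op (W : WeilCohomology.{u, v} ops) (X : 𝒱.Obj) : Type v := Module.End W.K (W.H X)

/-- The algebraic operators: the combinations, with coefficients in `K`, of the operators induced by
the algebraic cycles of codimension `dim X` on `X × X`. -/
def alg (W : WeilCohomology.{u, v} ops) (X : 𝒱.Obj) : Set (Op W X) :=
  Comb (cycleOperators W X X.dim)

/-- The sign conjecture for the direct summand of `h(X)` given by `f`: the operator which is `f` on
the even and zero on the odd cohomology of `X` is algebraic. -/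
def Sign (W : WeilCohomology.{u, v} ops) (X : 𝒱.Obj) (f : Op W X) : Prop :=
  EvenPartIn (W.gr X) (alg W X) f

/-- The operators on `V`, the image of `e`, which preserve the parity of the degrees. -/
def parOps (W : WeilCohomology.{u, v} ops) (X : 𝒱.Obj) (e : Op W X) : Set (Op W X) :=
  ParityOps (W.gr X) e

/-- The algebraic operators on `V`, the image of `e`, which commute with the operators in `L` have only
one eigenvalue on the even part and only one eigenvalue on the odd part of `V`. -/
def Rigid (W : WeilCohomology.{u, v} ops) (X : 𝒱.Obj) (e : Op W X) (L : Set (Op W X)) : Prop :=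
  RigidFor (W.gr X) (alg W X) e L

/-- Each algebraic operator on `V`, the image of `e`, is the sum of a scalar and a nilpotent operator:
the direct summand of `h(X)` given by `e` is absolutely indecomposable. -/
def Indec (W : WeilCohomology.{u, v} ops) (X : 𝒱.Obj) (e : Op W X) : Prop :=
  ScalarNil (alg W X) e

/-- The image of `e` is contained in the even or in the odd cohomology of `X`. -/
def IsPure (W : WeilCohomology.{u, v} ops) (X : 𝒱.Obj) (e : Op W X) : Prop := PureOn (W.gr X) e

/-- The image of `e` is contained in `H^i(X) + H^j(X)`. -/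
def InDegrees (W : WeilCohomology.{u, v} ops) (X : 𝒱.Obj) (e : Op W X) (i j : ℕ) : Prop :=
  InDegreesOn (W.gr X) e i j

/-- The external product `a ⊗ b` of cohomology classes, a class on `Y × Z`. -/
noncomputable def cross (W : WeilCohomology.{u, v} ops) (Y Z : 𝒱.Obj) (a : W.H Y) (b : W.H Z) :
    W.H (Y.prod Z) := W.map (fst Y Z) a * W.map (snd Y Z) b

/-- The class `x₀ ⊗ x₁ ⊗ ... ⊗ xₙ₋₁` on `X ^ n`, for `n ≥ 1`. -/
noncomputable def tens (W : WeilCohomology.{u, v} ops) (X : 𝒱.Obj) :
    (n : ℕ) → (ℕ → W.H X) → W.H (pw X n)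
  | 0 => fun x => x 0
  | 1 => fun x => x 0
  | n + 2 => fun x => cross W (pw X (n + 1)) X (tens W X (n + 1) x) (x (n + 1))

/-- The class `y ⊗ x₀ ⊗ x₁ ⊗ ... ⊗ xₙ₋₁` on `Y × X ^ n`, for `n ≥ 1`. -/
noncomputable def tensIn (W : WeilCohomology.{u, v} ops) (Y X : 𝒱.Obj) (n : ℕ) (y : W.H Y)
    (x : ℕ → W.H X) : W.H (Y.prod (pw X n)) := cross W Y (pw X n) y (tens W X n x)

/-- `ε ≠ 0` is a direct summand of `M ⊗ ... ⊗ M` (`n` factors), `M = (X, e)`. -/
def Piece (W : WeilCohomology.{u, v} ops) (X : 𝒱.Obj) (e : Op W X) (n : ℕ)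
    (ε : Op W (pw X n)) : Prop :=
  PieceOf (alg W (pw X n)) (fun _ : Unit => tens W X n) id e ε

/-- `ε ≠ 0` is a direct summand of `N ⊗ M ⊗ ... ⊗ M` (`n` factors `M`), `N = (Y, f)` and
`M = (X, e)`. -/
def PieceIn (W : WeilCohomology.{u, v} ops) (Y X : 𝒱.Obj) (f : Op W Y) (e : Op W X) (n : ℕ)
    (ε : Op W (Y.prod (pw X n))) : Prop :=
  PieceOf (alg W (Y.prod (pw X n))) (tensIn W Y X n) f e ε

/-- `ε` on `X ^ n` commutes with the derivations given by the operators in `L` and by the even part of
`e`. -/
def Invariant (W : WeilCohomology.{u, v} ops) (X : 𝒱.Obj) (e : Op W X) (L : Set (Op W X)) (n : ℕ)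
    (ε : Op W (pw X n)) : Prop :=
  InvariantFor (W.gr X) (fun _ : Unit => tens W X n) e L n ε

/-- The same for `ε` on `Y × X ^ n` and derivations of `X ^ n`. -/
def InvariantIn (W : WeilCohomology.{u, v} ops) (Y X : 𝒱.Obj) (e : Op W X) (L : Set (Op W X))
    (n : ℕ) (ε : Op W (Y.prod (pw X n))) : Prop :=
  InvariantFor (W.gr X) (tensIn W Y X n) e L n ε

end Pool.Agent.D0H31.SG.St
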